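import Pool.Agent.CP62.Defs

/-!
# Palindromic cubes: the digits
-/

namespace Pool.Agent.CP62

open Finset

theorem rv_succ' (K x : ℕ) : rv (K + 1) x = (x % 10) * 10 ^ K + rv K (x / 10) := by
  unfold rv
  rw [Finset.sum_range_succ', add_comm]
  congr 1
  · simp
  · refine Finset.sum_congr rfl fun i hi => ?_
    rw [Nat.div_div_eq_div_mul, ← pow_succ']
    congr 2
    omega

theorem rv_succ (K x : ℕ) : rv (K + 1) x = 10 * rv K x + x / 10 ^ K % 10 := by
  unfold rv
  rw [Finset.sum_range_succ, Finset.mul_sum]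
  congr 1
  · refine Finset.sum_congr rfl fun i hi => ?_
    have hi' := Finset.mem_range.1 hi
    have h1 : K + 1 - 1 - i = (K - 1 - i) + 1 := by omega
    rw [h1, pow_succ]
    ring
  · simp

theorem rv_lt (K x : ℕ) : rv K x < 10 ^ K := by
  induction K generalizing x with
  | zero => simp [rv]
  | succ K ih =>
    rw [rv_succ', pow_succ]
    have h1 := ih (x / 10)
    have h2 : x % 10 ≤ 9 := by omega
    nlinarith [Nat.mul_le_mul_right (10 ^ K) h2]

theorem rv_mod (K x : ℕ) : rv K (x % 10 ^ K) = rv K x := by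
  unfold rv
  refine Finset.sum_congr rfl fun i hi => ?_
  have hi' := Finset.mem_range.1 hi
  have h1 : 10 ^ K = 10 ^ i * 10 ^ (K - i) := by
    rw [← pow_add]
    congr 1
    omega
  rw [h1, Nat.mod_mul_right_div_self, Nat.mod_mod_of_dvd]
  exact dvd_pow_self 10 (by omega)

theorem rv_add (k M x : ℕ) : rv (k + M) x = rv k x * 10 ^ M + rv M (x / 10 ^ k) := by
  unfold rv
  rw [Finset.sum_range_add, Finset.sum_mul]
  congr 1
  · refine Finset.sum_congr rfl fun i hi => ?_
    have hi' := Finset.mem_range.1 hi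
    have h1 : k + M - 1 - i = (k - 1 - i) + M := by omega
    rw [h1, pow_add]
    ring
  · refine Finset.sum_congr rfl fun i hi => ?_
    have hi' := Finset.mem_range.1 hi
    rw [Nat.div_div_eq_div_mul, ← pow_add]
    congr 2
    omega

theorem rv_rv (K x : ℕ) : rv K (rv K x) = x % 10 ^ K := by
  induction K generalizing x with
  | zero => simp [rv, Nat.mod_one]
  | succ K ih =>
    have hlt := rv_lt K (x / 10)
    have h0 : 0 < 10 ^ K := by positivity
    rw [rv_succ]
    have h1 : rv (K + 1) x % 10 ^ K = rv K (x / 10) := by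
      rw [rv_succ', Nat.mul_comm, Nat.mul_add_mod, Nat.mod_eq_of_lt hlt]
    have h2 : rv (K + 1) x / 10 ^ K = x % 10 := by
      rw [rv_succ', Nat.mul_comm, Nat.mul_add_div h0, Nat.div_eq_of_lt hlt, add_zero]
    rw [← rv_mod K (rv (K + 1) x), h1, ih, h2, pow_succ', Nat.mod_mul]
    have h3 : x % 10 % 10 = x % 10 := by omega
    rw [h3, add_comm]

theorem sum_digits (D N : ℕ) : ∑ i ∈ range D, (N / 10 ^ i % 10) * 10 ^ i = N % 10 ^ D := by
  induction D with
  | zero => simp [Nat.mod_one]
  | succ D ih =>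
    rw [Finset.sum_range_succ, ih, pow_succ, Nat.mod_mul]
    ring

/-- a palindrome is its own reversal -/
theorem rv_pal (N D : ℕ) (h1 : 10 ^ D ≤ 10 * N) (h2 : N < 10 ^ D)
    (hp : (Nat.digits 10 N).reverse = Nat.digits 10 N) : rv D N = N := by
  have hN : 0 < N := by
    have : 0 < 10 ^ D := by positivity
    omega
  have hD : 1 ≤ D := by
    rcases Nat.eq_zero_or_pos D with h | h
    · subst h
      simp at h2
      omega
    · exact h
  have hlen1 : (Nat.digits 10 N).length ≤ D := (Nat.digits_length_le_iff (by norm_num) N).2 h2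
  have hlen2 : D - 1 < (Nat.digits 10 N).length := by
    refine (Nat.lt_digits_length_iff (by norm_num) N).2 ?_
    have h3 : 10 ^ D = 10 * 10 ^ (D - 1) := by
      rw [← pow_succ']
      congr 1
      omega
    omega
  have hlen : (Nat.digits 10 N).length = D := by omega
  have hsym : ∀ i < D, N / 10 ^ (D - 1 - i) % 10 = N / 10 ^ i % 10 := by
    intro i hi
    have e1 := Nat.getD_digits N i (b := 10) (by norm_num)
    have e2 := Nat.getD_digits N (D - 1 - i) (b := 10) (by norm_num)
    rw [← e1, ← e2]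
    conv_rhs => rw [← hp]
    rw [List.getD_eq_getElem?_getD, List.getD_eq_getElem?_getD, List.getElem?_reverse (by omega),
      hlen]
  have h4 : rv D N = ∑ i ∈ range D, (N / 10 ^ i % 10) * 10 ^ i := by
    unfold rv
    rw [← Finset.sum_range_reflect]
    refine Finset.sum_congr rfl fun i hi => ?_
    have hi' := Finset.mem_range.1 hi
    rw [hsym i hi']
    congr 2
    omega
  rw [h4, sum_digits, Nat.mod_eq_of_lt h2]

/-- the first `K` digits of a palindrome with `D` digits. -/
theorem pal_top (N D K : ℕ) (h1 : 10 ^ D ≤ 10 * N) (h2 : N < 10 ^ D)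
    (hp : (Nat.digits 10 N).reverse = Nat.digits 10 N) (hK : K ≤ D) :
    N / 10 ^ (D - K) = rv K N := by
  have h3 := rv_add K (D - K) N
  have h4 : K + (D - K) = D := by omega
  rw [h4, rv_pal N D h1 h2 hp] at h3
  have h5 := rv_lt (D - K) (N / 10 ^ K)
  have h0 : 0 < 10 ^ (D - K) := by positivity
  conv_lhs => rw [h3]
  rw [Nat.mul_comm, Nat.mul_add_div h0, Nat.div_eq_of_lt h5, add_zero]

end Pool.Agent.CP62
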