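import Mathlib

/-!
# Palindromic cubes: definitions
-/

namespace Pool.Agent.CP62

open Finset

/-- the number whose decimal digits are the lowest `K` digits of `x` in reversed order -/
def rv (K x : ℕ) : ℕ := ∑ i ∈ range K, (x / 10 ^ i % 10) * 10 ^ (K - 1 - i)

/-- the numbers with `d` digits whose cube is a palindrome with `D` digits -/
def cp (d D : ℕ) : Finset ℕ :=
  (range (10 ^ d)).filter fun n => 10 ^ d ≤ 10 * n ∧ 10 ^ D ≤ 10 * n ^ 3 ∧ n ^ 3 < 10 ^ D ∧
    (Nat.digits 10 (n ^ 3)).reverse = Nat.digits 10 (n ^ 3)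

/-- `e(x) = exp(2 π i x)` -/
noncomputable def e (x : ℝ) : ℂ := Complex.exp (2 * Real.pi * x * Complex.I)

/-- `∑_{q < 10} e(q x)` -/
noncomputable def DD (x : ℝ) : ℂ := ∑ q ∈ range 10, e (q * x)

/-- the distance of `x` to the nearest integer is at least `η` -/
def far (η x : ℝ) : Prop := ∀ z : ℤ, η ≤ |x - z|

/-- the cube root of `P * 10 ^ E` -/
noncomputable def cr (E P : ℕ) : ℝ := ((P : ℝ) * 10 ^ E) ^ ((1 : ℝ) / 3)

/-- the slope -/
noncomputable def bet (E k M P : ℕ) : ℝ := cr E P / (3 * P * 10 ^ (M + k))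

open Classical in
/-- the positions `i < M - 1` such that `99 G β 10 ^ (i - M)` is not close to an integer -/
noncomputable def pos (E k M P G : ℕ) : Finset ℕ :=
  (range (M - 1)).filter fun i => far (1 / 20) (99 * (G * bet E k M P / 10 ^ M) * 10 ^ i)

end Pool.Agent.CP62
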