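import Mathlib
import Pool.Agent.CP62.Defs

/-!
# Palindromic cubes: the leading digits of a cube
-/

namespace Pool.Agent.CP62

open Finset

theorem cr_pow (E P : ℕ) : cr E P ^ 3 = P * 10 ^ E := by
  have h0 : (0 : ℝ) ≤ (P : ℝ) * 10 ^ E := by positivity
  unfold cr
  rw [← Real.rpow_natCast, ← Real.rpow_mul h0]
  norm_num

theorem cr_nonneg (E P : ℕ) : 0 ≤ cr E P := by
  unfold cr
  positivity

theorem cr_pos (E P : ℕ) (hP : 1 ≤ P) : 0 < cr E P := by
  have hP' : (0 : ℝ) < P := by exact_mod_cast hP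
  unfold cr
  positivity

/-- linearisation. -/
theorem top_lin (n P W E M k : ℕ) (hk : 1 ≤ k) (hMk : M + 1 ≤ k) (hE : M ≤ E)
    (hN : n ^ 3 / 10 ^ (E - M) = P * 10 ^ M + W) (hW : W < 10 ^ M) (hP : 10 ^ k ≤ 10 * P) :
    |(n : ℝ) - cr E P - cr E P * W / (3 * P * 10 ^ M)| ≤ cr E P * 10 / (10 ^ M * 10 ^ k) := by
  have ha0 : 0 < 10 ^ (E - M) := by positivity
  have hlow : 10 ^ (E - M) * (P * 10 ^ M + W) ≤ n ^ 3 := by
    rw [← hN]; exact Nat.mul_div_le _ _
  have hup : n ^ 3 < 10 ^ (E - M) * (P * 10 ^ M + W + 1) := by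
    rw [← hN]; exact Nat.lt_mul_div_succ _ ha0
  have hE' : (10 : ℝ) ^ E = 10 ^ (E - M) * 10 ^ M := by
    rw [← pow_add]; congr 1; omega
  have hlowR : (10 : ℝ) ^ (E - M) * (P * 10 ^ M + W) ≤ (n : ℝ) ^ 3 := by exact_mod_cast hlow
  have hupR : (n : ℝ) ^ 3 < (10 : ℝ) ^ (E - M) * (P * 10 ^ M + W + 1) := by exact_mod_cast hup
  have hWR : (W : ℝ) + 1 ≤ 10 ^ M := by exact_mod_cast hW
  have hPR : (10 : ℝ) ^ k ≤ 10 * P := by exact_mod_cast hP
  have hQk : (10 : ℝ) ^ M * 10 ≤ 10 ^ k := by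
    rw [← pow_succ]
    exact pow_le_pow_right₀ (by norm_num) hMk
  have hQ1 : (1 : ℝ) ≤ 10 ^ M := one_le_pow₀ (by norm_num)
  have hPQ : (10 : ℝ) ^ M ≤ P := by linarith
  have hP1 : 1 ≤ P := by
    have : (1 : ℝ) ≤ P := by linarith
    exact_mod_cast this
  have hF0 : 0 < cr E P := cr_pos E P hP1
  have hF3 : cr E P ^ 3 = P * (10 ^ (E - M) * 10 ^ M) := by rw [cr_pow, hE']
  generalize cr E P = F at *
  generalize (10 : ℝ) ^ (E - M) = a at *
  have ha : 0 < a := by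
    by_contra hneg
    push Not at hneg
    have hQpos : (0 : ℝ) < 10 ^ M := by linarith
    have hPpos : (0 : ℝ) < P := by linarith
    have h1 : 0 < F ^ 3 := by positivity
    rw [hF3] at h1
    have h2 : a * 10 ^ M ≤ 0 := mul_nonpos_of_nonpos_of_nonneg hneg hQpos.le
    have h3 : (P : ℝ) * (a * 10 ^ M) ≤ 0 := mul_nonpos_of_nonneg_of_nonpos hPpos.le h2
    linarith
  generalize (10 : ℝ) ^ M = Q at *
  generalize (10 : ℝ) ^ k = K at *
  have hW0 : (0 : ℝ) ≤ W := Nat.cast_nonneg W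
  generalize (W : ℝ) = w at *
  have hn0 : (0 : ℝ) ≤ n := Nat.cast_nonneg n
  generalize (n : ℝ) = x at *
  generalize (P : ℝ) = p at *
  have hp : 0 < p := by linarith
  have hQ : 0 < Q := by linarith
  have hK : 0 < K := by nlinarith
  obtain ⟨t, ht⟩ : ∃ t : ℝ, x = F * (1 + t) := ⟨x / F - 1, by field_simp; ring⟩
  have hx3 : x ^ 3 = p * (a * Q) * (1 + t) ^ 3 := by rw [ht, mul_pow, hF3]
  have hpQ : 0 < p * Q := by positivity
  -- lower bound of u
  have hu1 : w / (p * Q) ≤ (1 + t) ^ 3 - 1 := by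
    rw [div_le_iff₀ hpQ]
    have : a * (p * Q + w) ≤ a * (p * Q * (1 + t) ^ 3) := by
      calc a * (p * Q + w) ≤ x ^ 3 := hlowR
        _ = a * (p * Q * (1 + t) ^ 3) := by rw [hx3]; ring
    have := le_of_mul_le_mul_left this ha
    linarith
  have hu2 : (1 + t) ^ 3 - 1 ≤ (w + 1) / (p * Q) := by
    rw [le_div_iff₀ hpQ]
    have : a * (p * Q * (1 + t) ^ 3) ≤ a * (p * Q + w + 1) := by
      calc a * (p * Q * (1 + t) ^ 3) = x ^ 3 := by rw [hx3]; ring
        _ ≤ a * (p * Q + w + 1) := hupR.le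
    have := le_of_mul_le_mul_left this ha
    linarith
  have hw1 : (w + 1) / (p * Q) ≤ 1 / p := by
    rw [div_le_div_iff₀ hpQ hp]
    nlinarith
  have hw0 : 0 ≤ w / (p * Q) := by positivity
  have ht0 : 0 ≤ t := by
    by_contra hneg
    push Not at hneg
    have h1 : (1 + t) ^ 3 < 1 := by
      have h2 : -1 ≤ t := by
        by_contra h3
        push Not at h3
        have : x < 0 := by rw [ht]; exact mul_neg_of_pos_of_neg hF0 (by linarith)
        linarith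
      have h4 : 0 ≤ 1 + t := by linarith
      calc (1 + t) ^ 3 < 1 ^ 3 := pow_lt_pow_left₀ (by linarith) h4 (by norm_num)
        _ = 1 := by norm_num
    linarith
  have h3t : 3 * t ≤ 1 / p := by
    have : 3 * t ≤ (1 + t) ^ 3 - 1 := by nlinarith [pow_nonneg ht0 2, pow_nonneg ht0 3]
    linarith
  have hpp : 1 / p ≤ 1 / Q := one_div_le_one_div_of_le hQ hPQ
  have hp1 : 1 / p ≤ 1 := by
    rw [div_le_one hp]; linarith
  have hip : 0 < 1 / p := by positivity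
  have hprod : 1 / (p * Q) = (1 / p) * (1 / Q) := by field_simp
  have hdiv : (w + 1) / (p * Q) = w / (p * Q) + 1 / (p * Q) := by ring
  have hsq : 3 * t ^ 2 + t ^ 3 ≤ (1 / p) * (1 / Q) := by
    have ht1 : t ≤ 1 := by linarith
    have h1 : t ^ 3 ≤ t ^ 2 := by nlinarith [pow_nonneg ht0 2]
    have h2 : t ^ 2 ≤ (1 / p) ^ 2 / 9 := by
      have : (3 * t) ^ 2 ≤ (1 / p) ^ 2 := pow_le_pow_left₀ (by linarith) h3t 2
      nlinarith
    have h3 : (1 / p) ^ 2 ≤ (1 / p) * (1 / Q) := by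
      rw [pow_two]
      exact mul_le_mul_of_nonneg_left hpp hip.le
    nlinarith [sq_nonneg (1 / p)]
  have key : |3 * t - w / (p * Q)| ≤ 1 / (p * Q) := by
    rw [abs_le, hprod]
    rw [hdiv, hprod] at hu2
    have hexp : (1 + t) ^ 3 - 1 = 3 * t + (3 * t ^ 2 + t ^ 3) := by ring
    rw [hexp] at hu1 hu2
    have h5 : 0 ≤ 3 * t ^ 2 + t ^ 3 := by positivity
    constructor
    · linarith
    · linarith
  have hrew : x - F - F * w / (3 * p * Q) = F / 3 * (3 * t - w / (p * Q)) := by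
    rw [ht]
    field_simp
    ring
  rw [hrew, abs_mul, abs_of_pos (by positivity : 0 < F / 3)]
  calc F / 3 * |3 * t - w / (p * Q)| ≤ F / 3 * (1 / (p * Q)) :=
        mul_le_mul_of_nonneg_left key (by positivity)
    _ ≤ F * 10 / (Q * K) := by
        rw [div_mul_div_comm, div_le_div_iff₀ (by positivity) (by positivity)]
        have : Q * K ≤ Q * (10 * p) := mul_le_mul_of_nonneg_left hPR hQ.le
        nlinarith [mul_pos hF0 hQ, mul_pos (mul_pos hF0 hQ) hp]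

/-- bounds of the cube root -/
theorem cr_bounds (d D k P : ℕ) (hd : 1 ≤ d) (hk : k ≤ D) (hD1 : 3 * d ≤ D + 2) (hD2 : D ≤ 3 * d)
    (hP1 : 10 ^ k ≤ 10 * P) (hP2 : P < 10 ^ k) :
    (10 : ℝ) ^ d ≤ 10 * cr (D - k) P ∧ cr (D - k) P ≤ 10 ^ d ∧
      cr (D - k) P ^ 3 = P * 10 ^ (D - k) := by
  have h3 := cr_pow (D - k) P
  have h0 := cr_nonneg (D - k) P
  have hD : (10 : ℝ) ^ D = 10 ^ k * 10 ^ (D - k) := by
    rw [← pow_add]; congr 1; omega
  have hP1R : (10 : ℝ) ^ k ≤ 10 * P := by exact_mod_cast hP1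
  have hP2R : (P : ℝ) ≤ 10 ^ k := by exact_mod_cast hP2.le
  have hpos : (0 : ℝ) < 10 ^ (D - k) := by positivity
  refine ⟨?_, ?_, h3⟩
  · refine le_of_pow_le_pow_left₀ (n := 3) (by norm_num) (by positivity) ?_
    calc ((10 : ℝ) ^ d) ^ 3 = 10 ^ (3 * d) := by rw [← pow_mul]; congr 1; ring
      _ ≤ 10 ^ (D + 2) := pow_le_pow_right₀ (by norm_num) hD1
      _ = 100 * (10 ^ k * 10 ^ (D - k)) := by rw [pow_add, hD]; ring
      _ ≤ 100 * (10 * P * 10 ^ (D - k)) := by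
          have := mul_le_mul_of_nonneg_right hP1R hpos.le
          linarith
      _ = (10 * cr (D - k) P) ^ 3 := by rw [mul_pow, h3]; ring
  · refine le_of_pow_le_pow_left₀ (n := 3) (by norm_num) (by positivity) ?_
    calc cr (D - k) P ^ 3 = P * 10 ^ (D - k) := h3
      _ ≤ 10 ^ k * 10 ^ (D - k) := mul_le_mul_of_nonneg_right hP2R hpos.le
      _ = 10 ^ D := hD.symm
      _ ≤ 10 ^ (3 * d) := pow_le_pow_right₀ (by norm_num) hD2
      _ = ((10 : ℝ) ^ d) ^ 3 := by rw [← pow_mul]; congr 1; ring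

end Pool.Agent.CP62
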