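import Pool.Agent.CP62.Defs

/-!
# CP62.CpC: the Fejér kernel counts the points close to integers
-/

namespace Pool.Agent.CP62

open Finset

private lemma e_add' (x y : ℝ) : e (x + y) = e x * e y := by
  unfold e
  rw [← Complex.exp_add]
  congr 1
  push_cast
  ring

private lemma e_eq (x : ℝ) : e x = Complex.exp (((2 * Real.pi * x : ℝ) : ℂ) * Complex.I) := by
  unfold e
  push_cast
  rfl

private lemma norm_e' (x : ℝ) : ‖e x‖ = 1 := by
  rw [e_eq]
  exact Complex.norm_exp_ofReal_mul_I _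

private lemma conj_e (x : ℝ) : (starRingEnd ℂ) (e x) = e (-x) := by
  rw [e_eq, e_eq, ← Complex.exp_conj]
  congr 1
  rw [map_mul, Complex.conj_ofReal, Complex.conj_I]
  push_cast
  ring

private lemma e_int (x : ℝ) (m : ℤ) : e (x + m) = e x := by
  rw [e_add']
  have : e (m : ℝ) = 1 := by
    unfold e
    have := Complex.exp_int_mul_two_pi_mul_I m
    rw [← this]
    congr 1
    push_cast
    ring
  rw [this, mul_one]

private lemma e_re (x : ℝ) : (e x).re = Real.cos (2 * Real.pi * x) := by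
  rw [e_eq]
  exact Complex.exp_ofReal_mul_I_re _

private lemma lower {x : ℝ} {H : ℕ} (hH : 1 ≤ H) (h : ∃ z : ℤ, |x - z| ≤ 1 / (8 * H)) :
    (H : ℝ) ^ 2 / 2 ≤ ‖∑ a ∈ range H, e (a * x)‖ ^ 2 := by
  obtain ⟨z, hz⟩ := h
  have hHp : (0 : ℝ) < H := by exact_mod_cast hH
  have h1 : ∀ a ∈ range H, Real.sqrt 2 / 2 ≤ (e (a * x)).re := by
    intro a ha
    have ha' : (a : ℝ) ≤ H := by exact_mod_cast (mem_range.1 ha).le
    have e1 : e (a * x) = e (a * (x - z)) := by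
      rw [← e_int (a * (x - z)) ((a : ℤ) * z)]
      congr 1
      push_cast
      ring
    rw [e1, e_re]
    have h2 : |(a : ℝ) * (x - z)| ≤ 1 / 8 := by
      rw [abs_mul, abs_of_nonneg (Nat.cast_nonneg a)]
      calc (a : ℝ) * |x - z| ≤ H * (1 / (8 * H)) :=
            mul_le_mul ha' hz (abs_nonneg _) hHp.le
        _ = 1 / 8 := by field_simp
    rw [← Real.cos_abs, ← Real.cos_pi_div_four]
    apply Real.cos_le_cos_of_nonneg_of_le_pi (abs_nonneg _)
    · linarith [Real.pi_pos]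
    · rw [abs_mul, abs_of_pos (by positivity : (0 : ℝ) < 2 * Real.pi)]
      calc 2 * Real.pi * |(a : ℝ) * (x - z)| ≤ 2 * Real.pi * (1 / 8) :=
            mul_le_mul_of_nonneg_left h2 (by positivity)
        _ = Real.pi / 4 := by ring
  have h3 : (H : ℝ) * (Real.sqrt 2 / 2) ≤ (∑ a ∈ range H, e (a * x)).re := by
    rw [Complex.re_sum]
    calc (H : ℝ) * (Real.sqrt 2 / 2) = ∑ _a ∈ range H, Real.sqrt 2 / 2 := by
          rw [sum_const, card_range, nsmul_eq_mul]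
      _ ≤ _ := sum_le_sum h1
  have h4 : (H : ℝ) * (Real.sqrt 2 / 2) ≤ ‖∑ a ∈ range H, e (a * x)‖ :=
    h3.trans (Complex.re_le_norm _)
  have h5 : ((H : ℝ) * (Real.sqrt 2 / 2)) ^ 2 ≤ ‖∑ a ∈ range H, e (a * x)‖ ^ 2 :=
    pow_le_pow_left₀ (by positivity) h4 2
  calc (H : ℝ) ^ 2 / 2 = ((H : ℝ) * (Real.sqrt 2 / 2)) ^ 2 := by
        rw [mul_pow, div_pow, Real.sq_sqrt (by norm_num)]
        ring
    _ ≤ _ := h5

private lemma normSq_eq (x : ℝ) (H : ℕ) :
    ((‖∑ a ∈ range H, e (a * x)‖ ^ 2 : ℝ) : ℂ) =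
      ∑ a ∈ range H, ∑ b ∈ range H, e (a * x) * e (-(b * x)) := by
  rw [← Complex.normSq_eq_norm_sq, Complex.normSq_eq_conj_mul_self, map_sum, mul_comm,
    sum_mul_sum]
  refine sum_congr rfl fun a _ => sum_congr rfl fun b _ => ?_
  rw [conj_e]

private lemma pair_le {ι : Type*} (s : Finset ι) (φ : ι → ℝ) (H : ℕ) (S : ℝ)
    (hS : ∀ G : ℕ, 1 ≤ G → G < H → ‖∑ j ∈ s, e (G * φ j)‖ ≤ S) {a b : ℕ} (ha : a < H)
    (hb : b < H) (hab : a ≠ b) : ‖∑ j ∈ s, e (a * φ j) * e (-(b * φ j))‖ ≤ S := by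
  rcases lt_or_gt_of_ne hab with h | h
  · have h1 : ∑ j ∈ s, e (a * φ j) * e (-(b * φ j)) =
        (starRingEnd ℂ) (∑ j ∈ s, e ((b - a : ℕ) * φ j)) := by
      rw [map_sum]
      refine sum_congr rfl fun j _ => ?_
      rw [conj_e, ← e_add']
      congr 1
      rw [Nat.cast_sub h.le]
      ring
    rw [h1, Complex.norm_conj]
    exact hS _ (by omega) (by omega)
  · have h1 : ∑ j ∈ s, e (a * φ j) * e (-(b * φ j)) = ∑ j ∈ s, e ((a - b : ℕ) * φ j) := by
      refine sum_congr rfl fun j _ => ?_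
      rw [← e_add']
      congr 1
      rw [Nat.cast_sub h.le]
      ring
    rw [h1]
    exact hS _ (by omega) (by omega)

private lemma diag_le {ι : Type*} (s : Finset ι) (φ : ι → ℝ) (a : ℕ) :
    ‖∑ j ∈ s, e (a * φ j) * e (-(a * φ j))‖ ≤ s.card := by
  calc ‖∑ j ∈ s, e (a * φ j) * e (-(a * φ j))‖ ≤ ∑ j ∈ s, ‖e (a * φ j) * e (-(a * φ j))‖ :=
        norm_sum_le _ _
    _ = ∑ _j ∈ s, (1 : ℝ) := by
        refine sum_congr rfl fun j _ => ?_
        rw [norm_mul, norm_e', norm_e', one_mul]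
    _ = s.card := by simp

open Classical in
/-- Proof: `∑ j ∈ s, ‖∑ a < H, e (a φ_j)‖^2 = ∑ a a', ∑ j, e ((a - a') φ_j) ≤ H N + H^2 S`, and if
`|φ_j - z| ≤ 1 / (8 H)` the inner sum has real part (after removing `z`) at least `H cos (π / 4)`,
so its square is at least `H^2 / 2`. -/
theorem fejer_count {ι : Type*} (s : Finset ι) (φ : ι → ℝ) (H : ℕ) (hH : 1 ≤ H) (S : ℝ)
    (hS0 : 0 ≤ S)
    (hS : ∀ G : ℕ, 1 ≤ G → G < H → ‖∑ j ∈ s, e (G * φ j)‖ ≤ S) :
    ((s.filter fun j => ∃ z : ℤ, |φ j - z| ≤ 1 / (8 * H)).card : ℝ) ≤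
      2 * (s.card / H + S) := by
  have hHp : (0 : ℝ) < H := by exact_mod_cast hH
  -- upper bound
  have hU : ∑ j ∈ s, ‖∑ a ∈ range H, e (a * φ j)‖ ^ 2 ≤ H * s.card + H ^ 2 * S := by
    have h0 : 0 ≤ ∑ j ∈ s, ‖∑ a ∈ range H, e (a * φ j)‖ ^ 2 :=
      sum_nonneg fun j _ => by positivity
    have h1 : ((∑ j ∈ s, ‖∑ a ∈ range H, e (a * φ j)‖ ^ 2 : ℝ) : ℂ) =
        ∑ a ∈ range H, ∑ b ∈ range H, ∑ j ∈ s, e (a * φ j) * e (-(b * φ j)) := by
      rw [Complex.ofReal_sum]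
      rw [sum_congr rfl fun j _ => normSq_eq (φ j) H]
      rw [sum_comm]
      refine sum_congr rfl fun a _ => ?_
      rw [sum_comm]
    have h2 : ∑ j ∈ s, ‖∑ a ∈ range H, e (a * φ j)‖ ^ 2 =
        ‖((∑ j ∈ s, ‖∑ a ∈ range H, e (a * φ j)‖ ^ 2 : ℝ) : ℂ)‖ := by
      rw [Complex.norm_real, Real.norm_of_nonneg h0]
    rw [h2, h1]
    calc ‖∑ a ∈ range H, ∑ b ∈ range H, ∑ j ∈ s, e (a * φ j) * e (-(b * φ j))‖
        ≤ ∑ a ∈ range H, ‖∑ b ∈ range H, ∑ j ∈ s, e (a * φ j) * e (-(b * φ j))‖ :=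
          norm_sum_le _ _
      _ ≤ ∑ a ∈ range H, ∑ b ∈ range H, ‖∑ j ∈ s, e (a * φ j) * e (-(b * φ j))‖ :=
          sum_le_sum fun a _ => norm_sum_le _ _
      _ ≤ ∑ a ∈ range H, ∑ b ∈ range H, ((if b = a then (s.card : ℝ) else 0) + S) := by
          refine sum_le_sum fun a ha => sum_le_sum fun b hb => ?_
          by_cases hab : b = a
          · subst hab
            rw [if_pos rfl]
            have := diag_le s φ b
            linarith
          · rw [if_neg hab, zero_add]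
            exact pair_le s φ H S hS (mem_range.1 ha) (mem_range.1 hb) (Ne.symm hab)
      _ = H * s.card + H ^ 2 * S := by
          have h3 : ∀ a ∈ range H, ∑ b ∈ range H, ((if b = a then (s.card : ℝ) else 0) + S) =
              s.card + H * S := by
            intro a ha
            rw [sum_add_distrib, sum_ite_eq' (range H) a, if_pos ha, sum_const, card_range,
              nsmul_eq_mul]
          rw [sum_congr rfl h3, sum_const, card_range, nsmul_eq_mul]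
          ring
  -- lower bound
  have hL : ((s.filter fun j => ∃ z : ℤ, |φ j - z| ≤ 1 / (8 * H)).card : ℝ) *
      ((H : ℝ) ^ 2 / 2) ≤ ∑ j ∈ s, ‖∑ a ∈ range H, e (a * φ j)‖ ^ 2 := by
    calc ((s.filter fun j => ∃ z : ℤ, |φ j - z| ≤ 1 / (8 * H)).card : ℝ) * ((H : ℝ) ^ 2 / 2)
        = ∑ _j ∈ s.filter fun j => ∃ z : ℤ, |φ j - z| ≤ 1 / (8 * H), (H : ℝ) ^ 2 / 2 := by
          rw [sum_const, nsmul_eq_mul]
      _ ≤ ∑ j ∈ s.filter fun j => ∃ z : ℤ, |φ j - z| ≤ 1 / (8 * H),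
            ‖∑ a ∈ range H, e (a * φ j)‖ ^ 2 :=
          sum_le_sum fun j hj => lower hH (mem_filter.1 hj).2
      _ ≤ _ := sum_le_sum_of_subset_of_nonneg (filter_subset _ _) fun j _ _ => by positivity
  have h4 := hL.trans hU
  have h5 : (0 : ℝ) < (H : ℝ) ^ 2 / 2 := by positivity
  rw [← le_div_iff₀ h5] at h4
  refine h4.trans (le_of_eq ?_)
  field_simp

end Pool.Agent.CP62
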