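import Pool.Agent.CP62.Defs

/-!
# Palindromic cubes: products
-/

set_option autoImplicit false

namespace Pool.Agent.CP62

open Finset

namespace PD

theorem e_add (x y : ℝ) : e (x + y) = e x * e y := by
  rw [e, e, e, ← Complex.exp_add]
  congr 1
  push_cast
  ring

theorem norm_e (x : ℝ) : ‖e x‖ = 1 := by
  have h : (2 * Real.pi * x * Complex.I : ℂ) = ((2 * Real.pi * x : ℝ) : ℂ) * Complex.I := by
    push_cast
    ring
  rw [e, h, Complex.norm_exp_ofReal_mul_I]

theorem e_zero : e 0 = 1 := by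
  simp [e]

theorem e_re (x : ℝ) : (e x).re = Real.cos (2 * Real.pi * x) := by
  have h : (2 * Real.pi * x * Complex.I : ℂ) = ((2 * Real.pi * x : ℝ) : ℂ) * Complex.I := by
    push_cast
    ring
  rw [e, h, Complex.exp_ofReal_mul_I_re]

theorem e_im (x : ℝ) : (e x).im = Real.sin (2 * Real.pi * x) := by
  have h : (2 * Real.pi * x * Complex.I : ℂ) = ((2 * Real.pi * x : ℝ) : ℂ) * Complex.I := by
    push_cast
    ring
  rw [e, h, Complex.exp_ofReal_mul_I_im]

theorem sum_range_mul' (a b : ℕ) (f : ℕ → ℂ) :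
    ∑ w ∈ range (a * b), f w = ∑ q ∈ range b, ∑ w ∈ range a, f (w + a * q) := by
  induction b with
  | zero => simp
  | succ b ih =>
    rw [Nat.mul_succ, sum_range_add, ih, sum_range_succ]
    congr 1
    apply sum_congr rfl
    intro w _
    rw [add_comm]

theorem digit_low (M w q i : ℕ) (hi : i < M) : (w + 10 ^ M * q) / 10 ^ i % 10 =
    w / 10 ^ i % 10 := by
  obtain ⟨c, rfl⟩ : ∃ c, M = i + (c + 1) := ⟨M - i - 1, by omega⟩
  have h1 : w + 10 ^ (i + (c + 1)) * q = w + 10 ^ i * (10 * (10 ^ c * q)) := by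
    rw [pow_add, pow_succ]
    ring
  rw [h1, Nat.add_mul_div_left _ _ (by positivity)]
  omega

theorem digit_top (M w q : ℕ) (hw : w < 10 ^ M) (hq : q < 10) :
    (w + 10 ^ M * q) / 10 ^ M % 10 = q := by
  rw [Nat.add_mul_div_left _ _ (by positivity), Nat.div_eq_of_lt hw]
  omega

theorem digit_sum' (M : ℕ) (θ : ℕ → ℝ) :
    ∑ w ∈ range (10 ^ M), e (∑ i ∈ range M, ((w / 10 ^ i % 10 : ℕ) : ℝ) * θ i) =
      ∏ i ∈ range M, DD (θ i) := by
  induction M with
  | zero => simp [e_zero]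
  | succ M ih =>
    rw [pow_succ, sum_range_mul', prod_range_succ, ← ih, DD, sum_mul_sum, sum_comm]
    apply sum_congr rfl
    intro w hw
    apply sum_congr rfl
    intro q hq
    rw [← e_add, sum_range_succ, digit_top M w q (mem_range.1 hw) (mem_range.1 hq)]
    congr 2
    apply sum_congr rfl
    intro i hi
    rw [digit_low M w q i (mem_range.1 hi)]

theorem one_add_e {x : ℝ} (h : far (1 / 220) x) : ‖1 + e x‖ ≤ 2 - 1 / 10 ^ 5 := by
  have h1 : ‖1 + e x‖ ^ 2 = 2 + 2 * Real.cos (2 * Real.pi * x) := by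
    rw [Complex.sq_norm, Complex.normSq_apply]
    simp only [Complex.add_re, Complex.one_re, Complex.add_im, Complex.one_im, e_re, e_im]
    have := Real.sin_sq_add_cos_sq (2 * Real.pi * x)
    nlinarith
  have h2 : Real.cos (2 * Real.pi * x) = Real.cos (2 * Real.pi * (x - round x)) := by
    have h3 : 2 * Real.pi * (x - round x) = 2 * Real.pi * x - (round x : ℝ) * (2 * Real.pi) := by
      ring
    rw [h3, Real.cos_sub_int_mul_two_pi]
  have h3 : |x - round x| ≤ 1 / 2 := abs_sub_round x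
  have h4 := h (round x)
  obtain ⟨y, hy⟩ : ∃ y, y = x - round x := ⟨_, rfl⟩
  rw [← hy] at h2 h3 h4
  have h5 : Real.cos (2 * Real.pi * y) ≤ 1 - 2 / Real.pi ^ 2 * (2 * Real.pi * y) ^ 2 := by
    apply Real.cos_le_one_sub_mul_cos_sq
    rw [abs_mul, abs_of_pos Real.two_pi_pos]
    nlinarith [Real.pi_pos]
  have h6 : 2 / Real.pi ^ 2 * (2 * Real.pi * y) ^ 2 = 8 * y ^ 2 := by
    have := Real.pi_ne_zero
    field_simp
    ring
  have h7 : (1 / 220 : ℝ) ^ 2 ≤ y ^ 2 := by
    rw [← sq_abs y]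
    exact pow_le_pow_left₀ (by norm_num) h4 2
  have h8 : ‖1 + e x‖ ^ 2 ≤ (2 - 1 / 10 ^ 5) ^ 2 := by
    rw [h1, h2]
    rw [h6] at h5
    have h9 : (2 : ℝ) + 2 * (1 - 8 * (1 / 220) ^ 2) ≤ (2 - 1 / 10 ^ 5) ^ 2 := by norm_num
    linarith
  exact le_of_sq_le_sq h8 (by norm_num)

end PD

open PD

/-- sums over all words of digits factor -/
theorem digit_sum (M : ℕ) (θ : ℕ → ℝ) (φ : ℝ) :
    ‖∑ w ∈ range (10 ^ M), e (φ + ∑ i ∈ range M, ((w / 10 ^ i % 10 : ℕ) : ℝ) * θ i)‖ =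
      ∏ i ∈ range M, ‖DD (θ i)‖ := by
  rw [← norm_prod, ← digit_sum' M θ]
  have h : ∑ w ∈ range (10 ^ M), e (φ + ∑ i ∈ range M, ((w / 10 ^ i % 10 : ℕ) : ℝ) * θ i) =
      e φ * ∑ w ∈ range (10 ^ M), e (∑ i ∈ range M, ((w / 10 ^ i % 10 : ℕ) : ℝ) * θ i) := by
    rw [mul_sum]
    exact sum_congr rfl fun w _ => e_add _ _
  rw [h, norm_mul, norm_e, one_mul]

theorem norm_DD_le (x : ℝ) : ‖DD x‖ ≤ 10 := by
  rw [DD]
  refine (norm_sum_le _ _).trans ?_
  simp only [norm_e]
  simp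

theorem norm_DD_far (x : ℝ) (h : far (1 / 220) x) : ‖DD x‖ ≤ 10 * (1 - 1 / 10 ^ 6) := by
  have h1 : DD x = (1 + e x) + ∑ q ∈ range 8, e ((2 + q : ℕ) * x) := by
    rw [DD, show (10 : ℕ) = 2 + 8 by norm_num, sum_range_add]
    congr 1
    rw [sum_range_succ, sum_range_succ, sum_range_zero, zero_add]
    simp [e_zero]
  have h2 : ‖∑ q ∈ range 8, e ((2 + q : ℕ) * x)‖ ≤ 8 := by
    refine (norm_sum_le _ _).trans ?_
    simp only [norm_e]
    simp
  have h3 := one_add_e h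
  have h4 := norm_add_le (1 + e x) (∑ q ∈ range 8, e ((2 + q : ℕ) * x))
  rw [← h1] at h4
  have h5 : (2 : ℝ) - 1 / 10 ^ 5 + 8 ≤ 10 * (1 - 1 / 10 ^ 6) := by norm_num
  linarith

open Classical in
theorem prod_bound (M r : ℕ) (x : ℕ → ℝ) (y : ℝ)
    (hx : ∀ i, i + 1 < M → 10 * x (i + 1) - x i = -(99 * y * 10 ^ i))
    (hr : r ≤ ((range (M - 1)).filter fun i => far (1 / 20) (99 * y * 10 ^ i)).card) :
    ∏ i ∈ range M, ‖DD (x i)‖ ≤ 10 ^ M * (1 - 1 / 10 ^ 6) ^ (r / 2) := by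
  have hsub : ((range (M - 1)).filter fun i => far (1 / 20) (99 * y * 10 ^ i)) ⊆
      ((range M).filter fun i => far (1 / 220) (x i)) ∪
        ((range M).filter fun i => far (1 / 220) (x i)).image (fun i => i - 1) := by
    intro i hi
    rw [mem_filter, mem_range] at hi
    obtain ⟨hi, hf⟩ := hi
    by_contra hcon
    rw [mem_union, not_or] at hcon
    obtain ⟨h1, h2⟩ := hcon
    have h3 : ¬ far (1 / 220) (x i) := fun h => h1 (by
      rw [mem_filter, mem_range]
      exact ⟨by omega, h⟩)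
    have h4 : ¬ far (1 / 220) (x (i + 1)) := fun h => h2 (by
      rw [mem_image]
      refine ⟨i + 1, ?_, by simp⟩
      rw [mem_filter, mem_range]
      exact ⟨by omega, h⟩)
    unfold far at h3 h4
    push Not at h3 h4
    obtain ⟨z, hz⟩ := h3
    obtain ⟨z', hz'⟩ := h4
    have h5 := hf (z - 10 * z')
    have h6 := hx i (by omega)
    have h7 : 99 * y * 10 ^ i - ((z - 10 * z' : ℤ) : ℝ) =
        (x i - z) - 10 * (x (i + 1) - z') := by
      push_cast
      linarith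
    rw [h7] at h5
    have h8 := abs_sub (x i - z) (10 * (x (i + 1) - z'))
    rw [abs_mul, abs_of_pos (by norm_num : (0 : ℝ) < 10)] at h8
    linarith
  have hcard : r / 2 ≤ ((range M).filter fun i => far (1 / 220) (x i)).card := by
    have h1 := (card_le_card hsub).trans (card_union_le _ _)
    have h2 := card_image_le (s := (range M).filter fun i => far (1 / 220) (x i))
      (f := fun i => i - 1)
    omega
  have hκ0 : (0 : ℝ) ≤ 1 - 1 / 10 ^ 6 := by norm_num
  have hκ1 : (1 : ℝ) - 1 / 10 ^ 6 ≤ 1 := by norm_num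
  calc ∏ i ∈ range M, ‖DD (x i)‖
      ≤ ∏ i ∈ range M, (10 * if far (1 / 220) (x i) then (1 - 1 / 10 ^ 6 : ℝ) else 1) := by
        apply prod_le_prod (fun _ _ => norm_nonneg _)
        intro i _
        split_ifs with h
        · exact norm_DD_far _ h
        · rw [mul_one]
          exact norm_DD_le _
    _ = 10 ^ M * (1 - 1 / 10 ^ 6) ^ ((range M).filter fun i => far (1 / 220) (x i)).card := by
        rw [prod_mul_distrib, prod_const, card_range, prod_ite, prod_const, prod_const_one,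
          mul_one]
    _ ≤ 10 ^ M * (1 - 1 / 10 ^ 6) ^ (r / 2) :=
        mul_le_mul_of_nonneg_left (pow_le_pow_of_le_one hκ0 hκ1 hcard) (by positivity)

end Pool.Agent.CP62
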