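import Pool.Agent.CP62.Defs

/-!
# Few numbers have decimal expansions which are mostly constant 0 or 9
-/

namespace Pool.Agent.CP62

open Finset

/-- the possible values of `round (y * 10 ^ i)` when at most `j` of the positions below `i` are far -/
noncomputable def RR : ℕ → ℕ → Finset ℤ
  | 0, _ => Icc 0 4
  | i + 1, 0 => (RR i 0).image fun r => 10 * r
  | i + 1, j + 1 => (RR i (j + 1)).image (fun r => 10 * r) ∪
      (Icc (-5 : ℤ) 5 ×ˢ RR i j).image fun p => 10 * p.2 + p.1

lemma RR_card (i : ℕ) : ∀ j : ℕ, ((RR i j).card : ℝ) ≤ 5 * 110 ^ j * (11 / 10) ^ i := by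
  induction i with
  | zero =>
    intro j
    have h1 : (RR 0 j).card = 5 := by
      cases j <;> rfl
    rw [h1, pow_zero, mul_one]
    have : (1 : ℝ) ≤ 110 ^ j := one_le_pow₀ (by norm_num)
    push_cast
    linarith
  | succ i ih =>
    intro j
    cases j with
    | zero =>
      have h1 : (RR (i + 1) 0).card ≤ (RR i 0).card := by
        rw [RR]
        exact card_image_le
      have h2 := ih 0
      have h3 : ((RR (i + 1) 0).card : ℝ) ≤ (RR i 0).card := by exact_mod_cast h1
      have h4 : (0 : ℝ) < (11 / 10) ^ i := by positivity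
      rw [pow_succ]
      nlinarith
    | succ j =>
      have h1 : (RR (i + 1) (j + 1)).card ≤ (RR i (j + 1)).card + 11 * (RR i j).card := by
        rw [RR]
        refine (card_union_le _ _).trans (add_le_add card_image_le (card_image_le.trans ?_))
        rw [card_product, show (Icc (-5 : ℤ) 5).card = 11 from rfl]
      have h2 := ih (j + 1)
      have h3 := ih j
      have h4 : ((RR (i + 1) (j + 1)).card : ℝ) ≤ (RR i (j + 1)).card + 11 * (RR i j).card := by
        exact_mod_cast h1
      have h5 : (5 : ℝ) * 110 ^ (j + 1) * (11 / 10) ^ (i + 1) =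
          5 * 110 ^ (j + 1) * (11 / 10) ^ i + 11 * (5 * 110 ^ j * (11 / 10) ^ i) := by
        rw [pow_succ, pow_succ]
        ring
      linarith

lemma round_not_far {x : ℝ} (h : ¬ far (1 / 20) x) : round (x * 10) = 10 * round x := by
  unfold far at h
  push Not at h
  obtain ⟨z, hz⟩ := h
  have h1 : round x = z := by
    rw [round_eq, Int.floor_eq_iff]
    rw [abs_lt] at hz
    constructor <;> linarith [hz.1, hz.2]
  have h2 : round (x * 10) = 10 * z := by
    rw [round_eq, Int.floor_eq_iff]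
    rw [abs_lt] at hz
    push_cast
    constructor <;> linarith [hz.1, hz.2]
  rw [h1, h2]

lemma round_step (x : ℝ) : -5 ≤ round (x * 10) - 10 * round x ∧
    round (x * 10) - 10 * round x ≤ 5 := by
  have h1 := abs_le.mp (abs_sub_round x)
  have h2 := abs_le.mp (abs_sub_round (x * 10))
  constructor
  · have h3 : (-6 : ℝ) < ((round (x * 10) - 10 * round x : ℤ) : ℝ) := by
      push_cast
      linarith [h1.1, h1.2, h2.1, h2.2]
    have h4 : (-6 : ℤ) < round (x * 10) - 10 * round x := by exact_mod_cast h3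
    omega
  · have h3 : ((round (x * 10) - 10 * round x : ℤ) : ℝ) < 6 := by
      push_cast
      linarith [h1.1, h1.2, h2.1, h2.2]
    have h4 : round (x * 10) - 10 * round x < 6 := by exact_mod_cast h3
    omega

open Classical in
lemma mem_RR (y : ℝ) (h0 : 0 ≤ y) (h4 : y < 4) (i : ℕ) : ∀ j : ℕ,
    ((range i).filter fun i => far (1 / 20) (y * 10 ^ i)).card ≤ j →
      round (y * 10 ^ i) ∈ RR i j := by
  induction i with
  | zero =>
    intro j _
    have h1 : RR 0 j = Icc 0 4 := by cases j <;> rfl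
    rw [h1, mem_Icc, pow_zero, mul_one]
    have h2 := abs_le.mp (abs_sub_round y)
    constructor
    · have h3 : (-1 : ℝ) < ((round y : ℤ) : ℝ) := by linarith [h2.1, h2.2]
      have h5 : (-1 : ℤ) < round y := by exact_mod_cast h3
      omega
    · have h3 : ((round y : ℤ) : ℝ) < 5 := by linarith [h2.1, h2.2]
      have h5 : round y < 5 := by exact_mod_cast h3
      omega
  | succ i ih =>
    intro j hj
    rw [range_add_one, filter_insert] at hj
    have hp : y * 10 ^ (i + 1) = y * 10 ^ i * 10 := by rw [pow_succ]; ring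
    by_cases hf : far (1 / 20) (y * 10 ^ i)
    · rw [if_pos hf, card_insert_of_notMem (by simp)] at hj
      obtain ⟨j', rfl⟩ : ∃ j', j = j' + 1 := ⟨j - 1, by omega⟩
      have h1 := ih j' (by omega)
      rw [RR, mem_union]
      right
      rw [mem_image]
      have h2 := round_step (y * 10 ^ i)
      refine ⟨(round (y * 10 ^ i * 10) - 10 * round (y * 10 ^ i), round (y * 10 ^ i)), ?_, ?_⟩
      · rw [mem_product, mem_Icc]
        exact ⟨h2, h1⟩
      · rw [hp]
        ring
    · rw [if_neg hf] at hj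
      have h1 := ih j hj
      have h2 := round_not_far hf
      cases j with
      | zero =>
        rw [RR, mem_image]
        exact ⟨_, h1, by rw [hp, h2]⟩
      | succ j =>
        rw [RR, mem_union, mem_image]
        exact Or.inl ⟨_, h1, by rw [hp, h2]⟩

open Classical in
/-- few numbers are mostly constant -/
theorem few_round (t M : ℕ) (hM : M = 20 * t) (S : Set ℝ) (h0 : ∀ y ∈ S, 0 ≤ y ∧ y < 4)
    (hS : ∀ y ∈ S, ((range (M - 1)).filter fun i => far (1 / 20) (y * 10 ^ i)).card < 2 * t) :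
    ∃ R : Finset ℤ, R.card ≤ 5 * 10 ^ (5 * t) ∧
      ∀ y ∈ S, ∃ z ∈ R, |y * 10 ^ (M - 1) - z| ≤ 1 / 2 := by
  refine ⟨RR (M - 1) (2 * t - 1), ?_, fun y hy => ?_⟩
  · have h1 := RR_card (M - 1) (2 * t - 1)
    have h2 : (110 : ℝ) ^ (2 * t - 1) ≤ 110 ^ (2 * t) :=
      pow_le_pow_right₀ (by norm_num) (by omega)
    have h3 : (11 / 10 : ℝ) ^ (M - 1) ≤ (11 / 10) ^ (20 * t) :=
      pow_le_pow_right₀ (by norm_num) (by omega)
    have h4 : (110 : ℝ) ^ (2 * t) * (11 / 10) ^ (20 * t) ≤ 10 ^ (5 * t) := by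
      rw [pow_mul, pow_mul, pow_mul, ← mul_pow]
      exact pow_le_pow_left₀ (by positivity) (by norm_num) t
    have h5 : ((RR (M - 1) (2 * t - 1)).card : ℝ) ≤ 5 * 10 ^ (5 * t) := by
      calc ((RR (M - 1) (2 * t - 1)).card : ℝ) ≤ 5 * 110 ^ (2 * t - 1) * (11 / 10) ^ (M - 1) := h1
        _ ≤ 5 * 110 ^ (2 * t) * (11 / 10) ^ (20 * t) := by gcongr
        _ = 5 * (110 ^ (2 * t) * (11 / 10) ^ (20 * t)) := by ring
        _ ≤ 5 * 10 ^ (5 * t) := by linarith
    exact_mod_cast h5
  · obtain ⟨ha, hb⟩ := h0 y hy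
    have h1 := hS y hy
    exact ⟨_, mem_RR y ha hb (M - 1) (2 * t - 1) (by omega), abs_sub_round _⟩

end Pool.Agent.CP62
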