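import Pool.Agent.CP62.Defs

/-!
# Few `P` with a given approximate value of the slope
-/

namespace Pool.Agent.CP62

open Finset

private theorem crb (d D k P : ℕ) (hk : k ≤ D) (hD1 : 3 * d ≤ D + 2) (hD2 : D ≤ 3 * d)
    (hP1 : 10 ^ k ≤ 10 * P) (hP2 : P < 10 ^ k) :
    (10 : ℝ) ^ d ≤ 10 * cr (D - k) P ∧ cr (D - k) P ≤ 10 ^ d ∧
      cr (D - k) P ^ 3 = P * 10 ^ (D - k) := by
  have hP0 : (0 : ℝ) ≤ (P : ℝ) * 10 ^ (D - k) := by positivity
  have h3 : cr (D - k) P ^ 3 = P * 10 ^ (D - k) := by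
    rw [cr, ← Real.rpow_natCast, ← Real.rpow_mul hP0]
    norm_num
  have hc0 : 0 ≤ cr (D - k) P := Real.rpow_nonneg hP0 _
  have e1 : (10 : ℝ) ^ k * 10 ^ (D - k) = 10 ^ D := by
    rw [← pow_add]; congr 1; omega
  have hP1' : (10 : ℝ) ^ k ≤ 10 * P := by exact_mod_cast hP1
  have hP2' : (P : ℝ) ≤ 10 ^ k := by exact_mod_cast hP2.le
  have e2 : (10 : ℝ) ^ D ≤ 10 * (P * 10 ^ (D - k)) := by
    calc (10 : ℝ) ^ D = 10 ^ k * 10 ^ (D - k) := e1.symm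
      _ ≤ (10 * P) * 10 ^ (D - k) := by gcongr
      _ = _ := by ring
  have e3 : (P : ℝ) * 10 ^ (D - k) ≤ 10 ^ D := by
    calc (P : ℝ) * 10 ^ (D - k) ≤ 10 ^ k * 10 ^ (D - k) := by gcongr
      _ = 10 ^ D := e1
  refine ⟨?_, ?_, h3⟩
  · apply le_of_pow_le_pow_left₀ (n := 3) (by norm_num) (by positivity)
    rw [mul_pow, h3, ← pow_mul]
    have e4 : (10 : ℝ) ^ (d * 3) ≤ 10 ^ (D + 2) := pow_le_pow_right₀ (by norm_num) (by omega)
    calc (10 : ℝ) ^ (d * 3) ≤ 10 ^ (D + 2) := e4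
      _ = 10 ^ D * 100 := by rw [pow_add]; norm_num
      _ ≤ (10 * (P * 10 ^ (D - k))) * 100 := by gcongr
      _ = 10 ^ 3 * (P * 10 ^ (D - k)) := by ring
  · apply le_of_pow_le_pow_left₀ (n := 3) (by norm_num) (by positivity)
    rw [h3, ← pow_mul]
    exact e3.trans (pow_le_pow_right₀ (by norm_num) (by omega))

private theorem key (d D k L M G P P' : ℕ) (hdk : d = 2 * k + L) (hkD : k ≤ D) (hM : 1 ≤ M)
    (hD1 : 3 * d ≤ D + 2) (hD2 : D ≤ 3 * d) (hG1 : 1 ≤ G) (z : ℤ) (hPP : P ≤ P')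
    (h1 : 10 ^ k ≤ 10 * P) (h2 : P' < 10 ^ k)
    (hz : |99 * (G * bet (D - k) k M P / 10 ^ M) * 10 ^ (M - 1) - z| ≤ 1 / 2)
    (hz' : |99 * (G * bet (D - k) k M P' / 10 ^ M) * 10 ^ (M - 1) - z| ≤ 1 / 2) :
    ((P' : ℝ) - P) * 10 ^ L ≤ 10 ^ (M + k + 2) := by
  obtain ⟨m, rfl⟩ : ∃ m, M = m + 1 := ⟨M - 1, by omega⟩
  obtain ⟨c1, -, c3⟩ := crb d D k P hkD hD1 hD2 h1 (lt_of_le_of_lt hPP h2)
  obtain ⟨c1', -, c3'⟩ := crb d D k P' hkD hD1 hD2 (h1.trans (by omega)) h2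
  obtain ⟨c, hc⟩ : ∃ c, c = cr (D - k) P := ⟨_, rfl⟩
  obtain ⟨c', hc'⟩ : ∃ c, c = cr (D - k) P' := ⟨_, rfl⟩
  obtain ⟨T, hT⟩ : ∃ T : ℝ, T = 10 ^ (D - k) := ⟨_, rfl⟩
  obtain ⟨p, hp⟩ : ∃ p : ℝ, p = P := ⟨_, rfl⟩
  obtain ⟨p', hp'⟩ : ∃ p : ℝ, p = P' := ⟨_, rfl⟩
  have hP1 : 1 ≤ P := by
    have : 1 ≤ 10 ^ k := Nat.one_le_pow _ _ (by norm_num)
    omega
  have hp0 : 0 < p := by rw [hp]; exact_mod_cast hP1
  have hpp : p ≤ p' := by rw [hp, hp']; exact_mod_cast hPP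
  have hp0' : 0 < p' := lt_of_lt_of_le hp0 hpp
  have hpk : p' ≤ 10 ^ k := by rw [hp']; exact_mod_cast h2.le
  rw [bet, ← hc, ← hp, Nat.add_sub_cancel] at hz
  rw [bet, ← hc', ← hp', Nat.add_sub_cancel] at hz'
  rw [← hc, ← hp, ← hT] at c3
  rw [← hc', ← hp', ← hT] at c3'
  rw [← hc] at c1
  rw [← hc'] at c1'
  rw [← hp, ← hp']
  have hT0 : 0 < T := by rw [hT]; positivity
  have h10d : (0 : ℝ) < 10 ^ d := by positivity
  have hc0 : 0 < c := by linarith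
  have hc0' : 0 < c' := by linarith
  obtain ⟨a, ha⟩ : ∃ a, a = c / p := ⟨_, rfl⟩
  obtain ⟨a', ha'⟩ : ∃ a, a = c' / p' := ⟨_, rfl⟩
  have ha0 : 0 < a := by rw [ha]; positivity
  have ha0' : 0 < a' := by rw [ha']; positivity
  have hcp : c = a * p := by rw [ha]; field_simp
  have hcp' : c' = a' * p' := by rw [ha']; field_simp
  -- the cubes
  have q1 : a ^ 3 * p ^ 2 = T := by
    have : a ^ 3 * p ^ 2 * p = T * p := by
      calc a ^ 3 * p ^ 2 * p = (a * p) ^ 3 := by ring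
        _ = T * p := by rw [← hcp, c3]; ring
    exact mul_right_cancel₀ hp0.ne' this
  have q2 : a' ^ 3 * p' ^ 2 = T := by
    have : a' ^ 3 * p' ^ 2 * p' = T * p' := by
      calc a' ^ 3 * p' ^ 2 * p' = (a' * p') ^ 3 := by ring
        _ = T * p' := by rw [← hcp', c3']; ring
    exact mul_right_cancel₀ hp0'.ne' this
  have haa : a' ≤ a := by
    apply le_of_pow_le_pow_left₀ (n := 3) (by norm_num) ha0.le
    have h3 : a' ^ 3 * p' ^ 2 ≤ a ^ 3 * p' ^ 2 := by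
      rw [q2, ← q1]
      gcongr
    exact le_of_mul_le_mul_right h3 (by positivity)
  -- the lower bound
  have low : c * (p' - p) ≤ 3 * (a - a') * (p * p') := by
    have r1 : a ^ 3 - a' ^ 3 ≤ 3 * a ^ 2 * (a - a') := by
      nlinarith [mul_nonneg (sub_nonneg.2 haa) (sub_nonneg.2 haa), mul_nonneg (sub_nonneg.2 haa)
        (mul_nonneg (sub_nonneg.2 haa) ha0.le), mul_nonneg (sub_nonneg.2 haa)
        (mul_nonneg (sub_nonneg.2 haa) ha0'.le)]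
    have r2 : (a ^ 3 - a' ^ 3) * (p ^ 2 * p' ^ 2) = T * (p' ^ 2 - p ^ 2) := by
      calc (a ^ 3 - a' ^ 3) * (p ^ 2 * p' ^ 2) =
            (a ^ 3 * p ^ 2) * p' ^ 2 - (a' ^ 3 * p' ^ 2) * p ^ 2 := by ring
        _ = T * (p' ^ 2 - p ^ 2) := by rw [q1, q2]; ring
    have r3 : T * ((p' - p) * p') ≤ 3 * a ^ 2 * (a - a') * (p ^ 2 * p' ^ 2) := by
      calc T * ((p' - p) * p') ≤ T * ((p' - p) * (p' + p)) := by
            have : 0 ≤ p' - p := by linarith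
            have : p' ≤ p' + p := by linarith
            gcongr
        _ = (a ^ 3 - a' ^ 3) * (p ^ 2 * p' ^ 2) := by rw [r2]; ring
        _ ≤ 3 * a ^ 2 * (a - a') * (p ^ 2 * p' ^ 2) := by gcongr
    have r4 : (c * (p' - p)) * (a ^ 2 * p * p') ≤ (3 * (a - a') * (p * p')) * (a ^ 2 * p * p') := by
      calc (c * (p' - p)) * (a ^ 2 * p * p') = (a ^ 3 * p ^ 2) * ((p' - p) * p') := by
            rw [hcp]; ring
        _ ≤ 3 * a ^ 2 * (a - a') * (p ^ 2 * p' ^ 2) := by rw [q1]; exact r3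
        _ = (3 * (a - a') * (p * p')) * (a ^ 2 * p * p') := by ring
    exact le_of_mul_le_mul_right r4 (by positivity)
  -- the upper bound
  have hG : (1 : ℝ) ≤ G := by exact_mod_cast hG1
  have up : 33 * (a - a') ≤ 10 ^ (m + 1 + k + 1) := by
    have s1 : 99 * ((G : ℝ) * (c / (3 * p * 10 ^ (m + 1 + k))) / 10 ^ (m + 1)) * 10 ^ m =
        33 * G * a / 10 ^ (m + 1 + k + 1) := by
      rw [ha]
      have : (10 : ℝ) ^ m ≠ 0 := by positivity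
      have : (10 : ℝ) ^ k ≠ 0 := by positivity
      rw [show (10 : ℝ) ^ (m + 1) = 10 ^ m * 10 from pow_succ _ _,
        show (10 : ℝ) ^ (m + 1 + k) = 10 ^ m * 10 * 10 ^ k by rw [pow_add, pow_succ],
        show (10 : ℝ) ^ (m + 1 + k + 1) = 10 ^ m * 10 * 10 ^ k * 10 by
          rw [pow_succ, pow_add, pow_succ]]
      field_simp
      ring
    have s2 : 99 * ((G : ℝ) * (c' / (3 * p' * 10 ^ (m + 1 + k))) / 10 ^ (m + 1)) * 10 ^ m =
        33 * G * a' / 10 ^ (m + 1 + k + 1) := by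
      rw [ha']
      have : (10 : ℝ) ^ m ≠ 0 := by positivity
      have : (10 : ℝ) ^ k ≠ 0 := by positivity
      rw [show (10 : ℝ) ^ (m + 1) = 10 ^ m * 10 from pow_succ _ _,
        show (10 : ℝ) ^ (m + 1 + k) = 10 ^ m * 10 * 10 ^ k by rw [pow_add, pow_succ],
        show (10 : ℝ) ^ (m + 1 + k + 1) = 10 ^ m * 10 * 10 ^ k * 10 by
          rw [pow_succ, pow_add, pow_succ]]
      field_simp
      ring
    rw [s1] at hz
    rw [s2] at hz'
    have t1 := (abs_le.1 hz).2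
    have t2 := (abs_le.1 hz').1
    have t3 : 33 * G * a / 10 ^ (m + 1 + k + 1) - 33 * G * a' / 10 ^ (m + 1 + k + 1) ≤ 1 := by
      linarith
    rw [← sub_div, div_le_one (by positivity)] at t3
    have t4 : 33 * (a - a') ≤ G * (33 * (a - a')) := by
      have : 0 ≤ 33 * (a - a') := by linarith
      nlinarith
    calc 33 * (a - a') ≤ G * (33 * (a - a')) := t4
      _ = 33 * G * a - 33 * G * a' := by ring
      _ ≤ _ := t3
  -- conclusion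
  have e1 : (10 : ℝ) ^ d = 10 ^ k * 10 ^ k * 10 ^ L := by
    rw [hdk, pow_add, two_mul, pow_add]
  have hk0 : (0 : ℝ) < 10 ^ k * 10 ^ k := by positivity
  have f1 : (p' - p) * 10 ^ L * (10 ^ k * 10 ^ k) ≤ 30 * (a - a') * (10 ^ k * 10 ^ k) := by
    have hd0 : 0 ≤ p' - p := by linarith
    calc (p' - p) * 10 ^ L * (10 ^ k * 10 ^ k) = 10 ^ d * (p' - p) := by rw [e1]; ring
      _ ≤ 10 * c * (p' - p) := by gcongr
      _ = 10 * (c * (p' - p)) := by ring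
      _ ≤ 10 * (3 * (a - a') * (p * p')) := by gcongr
      _ = 30 * (a - a') * (p * p') := by ring
      _ ≤ 30 * (a - a') * (10 ^ k * 10 ^ k) := by
          have : 0 ≤ a - a' := by linarith
          have : p ≤ 10 ^ k := hpp.trans hpk
          gcongr
  have f2 := le_of_mul_le_mul_right f1 hk0
  have f3 : (10 : ℝ) ^ (m + 1 + k + 1) ≤ 10 ^ (m + 1 + k + 2) :=
    pow_le_pow_right₀ (by norm_num) (by omega)
  have f4 : 0 ≤ a - a' := by linarith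
  linarith

open Classical in
theorem few_P (d D k L M G : ℕ) (hd : 1 ≤ d) (hdk : d = 2 * k + L) (hkD : k ≤ D)
    (hM : 1 ≤ M) (hL : L ≤ M + k + 2)
    (hD1 : 3 * d ≤ D + 2) (hD2 : D ≤ 3 * d)
    (hG1 : 1 ≤ G) (z : ℤ) :
    (((Ico 1 (10 ^ k)).filter fun P => 10 ^ k ≤ 10 * P ∧
      |99 * (G * bet (D - k) k M P / 10 ^ M) * 10 ^ (M - 1) - z| ≤ 1 / 2).card) * 10 ^ L ≤
      10 ^ (M + k + 3) := by
  obtain ⟨S, hS⟩ : ∃ S, S = (Ico 1 (10 ^ k)).filter fun P => 10 ^ k ≤ 10 * P ∧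
      |99 * (G * bet (D - k) k M P / 10 ^ M) * 10 ^ (M - 1) - z| ≤ 1 / 2 := ⟨_, rfl⟩
  rw [← hS]
  have hmem : ∀ P ∈ S, P < 10 ^ k ∧ 10 ^ k ≤ 10 * P ∧
      |99 * (G * bet (D - k) k M P / 10 ^ M) * 10 ^ (M - 1) - z| ≤ 1 / 2 := by
    intro P hP
    rw [hS, mem_filter, mem_Ico] at hP
    exact ⟨hP.1.2, hP.2.1, hP.2.2⟩
  rcases S.eq_empty_or_nonempty with h0 | h0
  · rw [h0, card_empty, zero_mul]
    exact Nat.zero_le _
  · have ha := hmem _ (S.min'_mem h0)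
    have hb := hmem _ (S.max'_mem h0)
    have hab : S.min' h0 ≤ S.max' h0 := S.min'_le _ (S.max'_mem h0)
    have hk := key d D k L M G (S.min' h0) (S.max' h0) hdk hkD hM hD1 hD2 hG1 z hab ha.2.1 hb.1
      ha.2.2 hb.2.2
    have hsub : S ⊆ Icc (S.min' h0) (S.max' h0) := fun x hx =>
      mem_Icc.2 ⟨S.min'_le _ hx, S.le_max' _ hx⟩
    have hcard := card_le_card hsub
    rw [Nat.card_Icc] at hcard
    have h1 : (S.max' h0 - S.min' h0) * 10 ^ L ≤ 10 ^ (M + k + 2) := by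
      have h2 : (((S.max' h0 - S.min' h0 : ℕ) : ℝ)) * 10 ^ L ≤ 10 ^ (M + k + 2) := by
        rw [Nat.cast_sub hab]
        exact hk
      exact_mod_cast h2
    have h3 : 10 ^ L ≤ 10 ^ (M + k + 2) := Nat.pow_le_pow_right (by norm_num) hL
    calc S.card * 10 ^ L ≤ (S.max' h0 - S.min' h0 + 1) * 10 ^ L :=
          Nat.mul_le_mul_right _ (by omega)
      _ = (S.max' h0 - S.min' h0) * 10 ^ L + 10 ^ L := by ring
      _ ≤ 10 ^ (M + k + 2) + 10 ^ (M + k + 2) := add_le_add h1 h3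
      _ ≤ 10 ^ (M + k + 3) := by
          rw [pow_succ 10 (M + k + 2)]
          omega

theorem y_bounds (d D k L M h G P : ℕ) (hd : 1 ≤ d) (hdk : d = 2 * k + L) (hkD : k ≤ D)
    (hh : 2 * M = L + 2 + h)
    (hD1 : 3 * d ≤ D + 2) (hD2 : D ≤ 3 * d)
    (hG2 : G < 10 ^ h) (hP1 : 10 ^ k ≤ 10 * P) (hP2 : P < 10 ^ k) :
    0 ≤ 99 * (G * bet (D - k) k M P / 10 ^ M) ∧ 99 * (G * bet (D - k) k M P / 10 ^ M) < 4 := by
  obtain ⟨c1, c2, c3⟩ := crb d D k P hkD hD1 hD2 hP1 hP2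
  have hP1' : (10 : ℝ) ^ k ≤ 10 * P := by exact_mod_cast hP1
  have hk0 : (0 : ℝ) < 10 ^ k := by positivity
  have hp0 : (0 : ℝ) < P := by linarith
  have h10d : (0 : ℝ) < 10 ^ d := by positivity
  have hc0 : 0 < cr (D - k) P := by linarith
  have hG2' : (G : ℝ) < 10 ^ h := by exact_mod_cast hG2
  have hG0 : (0 : ℝ) ≤ G := Nat.cast_nonneg G
  rw [bet]
  constructor
  · positivity
  · have e1 : 99 * ((G : ℝ) * (cr (D - k) P / (3 * P * 10 ^ (M + k))) / 10 ^ M) =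
        33 * G * cr (D - k) P / (P * 10 ^ k * (10 ^ M * 10 ^ M)) := by
      rw [pow_add]
      field_simp
      ring
    have e2 : (10 : ℝ) ^ M * 10 ^ M = 10 ^ L * 100 * 10 ^ h := by
      rw [← pow_add, ← two_mul, hh, pow_add, pow_add]
      norm_num
    have e3 : (10 : ℝ) ^ d = 10 ^ k * 10 ^ k * 10 ^ L := by
      rw [hdk, pow_add, two_mul, pow_add]
    rw [e1, div_lt_iff₀ (by positivity), e2]
    calc 33 * (G : ℝ) * cr (D - k) P ≤ 33 * G * (10 ^ k * 10 ^ k * 10 ^ L) := by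
          rw [← e3]; gcongr
      _ ≤ 33 * 10 ^ h * (10 ^ k * 10 ^ k * 10 ^ L) := by gcongr
      _ ≤ 33 * 10 ^ h * (10 * P * 10 ^ k * 10 ^ L) := by gcongr
      _ = 330 * (10 ^ h * P * 10 ^ k * 10 ^ L) := by ring
      _ < 400 * (10 ^ h * P * 10 ^ k * 10 ^ L) := by
          have : (0 : ℝ) < 10 ^ h * P * 10 ^ k * 10 ^ L := by positivity
          linarith
      _ = 4 * (P * 10 ^ k * (10 ^ L * 100 * 10 ^ h)) := by ring

end Pool.Agent.CP62
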