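import Pool.Agent.CP62.CpA

/-!
# Palindromic cubes: cube roots modulo powers of ten
-/

namespace Pool.Agent.CP62

open Finset

theorem G.key (p : ℕ) (hp : p.Prime) (hq : ∀ a b : ℤ, (p : ℤ) ∣ a ^ 2 + a * b + b ^ 2 → (p : ℤ) ∣ a)
    (s : ℕ) : ∀ (k : ℕ) (x y : ℤ), 3 * s ≤ k → (p : ℤ) ^ k ∣ x ^ 3 - y ^ 3 → ¬ (p : ℤ) ^ s ∣ x →
      (p : ℤ) ^ (k - 2 * s) ∣ x - y := by
  have hpi : Prime (p : ℤ) := Nat.prime_iff_prime_int.mp hp
  induction s with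
  | zero => intro k x y _ _ hx; simp at hx
  | succ s ih =>
    intro k x y hs h hx
    by_cases hpx : (p : ℤ) ∣ x
    · have hk : (p : ℤ) ∣ (p : ℤ) ^ k := dvd_pow_self _ (by omega)
      have hy3 : (p : ℤ) ∣ y ^ 3 := by
        have h1 : (p : ℤ) ∣ x ^ 3 - y ^ 3 := hk.trans h
        have h2 : (p : ℤ) ∣ x ^ 3 := hpx.trans (dvd_pow_self _ (by norm_num))
        have := dvd_sub h2 h1
        simpa using this
      have hpy : (p : ℤ) ∣ y := hpi.dvd_of_dvd_pow hy3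
      obtain ⟨x1, rfl⟩ := hpx
      obtain ⟨y1, rfl⟩ := hpy
      have hp0 : (p : ℤ) ≠ 0 := hpi.ne_zero
      have h1 : (p : ℤ) ^ (k - 3) ∣ x1 ^ 3 - y1 ^ 3 := by
        have h2 : (p : ℤ) ^ 3 * (p : ℤ) ^ (k - 3) ∣ (p : ℤ) ^ 3 * (x1 ^ 3 - y1 ^ 3) := by
          rw [← pow_add, show 3 + (k - 3) = k by omega]
          convert h using 1
          ring
        exact (mul_dvd_mul_iff_left (pow_ne_zero 3 hp0)).mp h2
      have hx1 : ¬ (p : ℤ) ^ s ∣ x1 := by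
        intro hc
        apply hx
        rw [pow_succ']
        exact mul_dvd_mul_left _ hc
      have h3 := ih (k - 3) x1 y1 (by omega) h1 hx1
      have h4 : (p : ℤ) * (p : ℤ) ^ (k - 3 - 2 * s) ∣ (p : ℤ) * (x1 - y1) := mul_dvd_mul_left _ h3
      rw [← pow_succ', show k - 3 - 2 * s + 1 = k - 2 * (s + 1) by omega] at h4
      convert h4 using 1
      ring
    · have h1 : ¬ (p : ℤ) ∣ x ^ 2 + x * y + y ^ 2 := fun hc => hpx (hq _ _ hc)
      have h2 : IsCoprime ((p : ℤ) ^ k) (x ^ 2 + x * y + y ^ 2) :=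
        ((Prime.coprime_iff_not_dvd hpi).mpr h1).pow_left
      have h3 : (p : ℤ) ^ k ∣ (x - y) * (x ^ 2 + x * y + y ^ 2) := by
        convert h using 1
        ring
      have h4 : (p : ℤ) ^ k ∣ x - y := h2.dvd_of_dvd_mul_right h3
      exact (pow_dvd_pow _ (by omega)).trans h4

theorem G.q2 (a b : ℤ) (h : ((2 : ℕ) : ℤ) ∣ a ^ 2 + a * b + b ^ 2) : ((2 : ℕ) : ℤ) ∣ a := by
  have h1 : ((a ^ 2 + a * b + b ^ 2 : ℤ) : ZMod 2) = 0 := (ZMod.intCast_zmod_eq_zero_iff_dvd _ 2).mpr h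
  apply (ZMod.intCast_zmod_eq_zero_iff_dvd a 2).mp
  push_cast at h1
  generalize (a : ZMod 2) = u at *
  generalize (b : ZMod 2) = v at *
  revert u v
  decide

theorem G.q5 (a b : ℤ) (h : ((5 : ℕ) : ℤ) ∣ a ^ 2 + a * b + b ^ 2) : ((5 : ℕ) : ℤ) ∣ a := by
  have h1 : ((a ^ 2 + a * b + b ^ 2 : ℤ) : ZMod 5) = 0 := (ZMod.intCast_zmod_eq_zero_iff_dvd _ 5).mpr h
  apply (ZMod.intCast_zmod_eq_zero_iff_dvd a 5).mp
  push_cast at h1
  generalize (a : ZMod 5) = u at *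
  generalize (b : ZMod 5) = v at *
  revert u v
  decide

theorem cube_inj (k s x y : ℕ) (hs : 3 * s ≤ k) (h : x ^ 3 % 10 ^ k = y ^ 3 % 10 ^ k)
    (h2 : ¬ 2 ^ s ∣ x) (h5 : ¬ 5 ^ s ∣ x) : x % 10 ^ (k - 2 * s) = y % 10 ^ (k - 2 * s) := by
  have h' : ((10 ^ k : ℕ) : ℤ) ∣ (x : ℤ) ^ 3 - (y : ℤ) ^ 3 := by
    have h3 : y ^ 3 ≡ x ^ 3 [MOD 10 ^ k] := h.symm
    have h4 := (Nat.modEq_iff_dvd).mp h3
    push_cast at h4 ⊢
    exact h4
  have e2 : ((2 : ℕ) : ℤ) ^ k ∣ (x : ℤ) ^ 3 - (y : ℤ) ^ 3 := by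
    refine dvd_trans ?_ h'
    push_cast
    exact pow_dvd_pow_of_dvd (by norm_num) k
  have e5 : ((5 : ℕ) : ℤ) ^ k ∣ (x : ℤ) ^ 3 - (y : ℤ) ^ 3 := by
    refine dvd_trans ?_ h'
    push_cast
    exact pow_dvd_pow_of_dvd (by norm_num) k
  have f2 := G.key 2 Nat.prime_two G.q2 s k x y hs e2 (by exact_mod_cast h2)
  have f5 := G.key 5 Nat.prime_five G.q5 s k x y hs e5 (by exact_mod_cast h5)
  have hc : IsCoprime (((2 : ℕ) : ℤ) ^ (k - 2 * s)) (((5 : ℕ) : ℤ) ^ (k - 2 * s)) := by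
    apply IsCoprime.pow
    norm_num
  have f := hc.mul_dvd f2 f5
  rw [← mul_pow] at f
  have g : y ≡ x [MOD 10 ^ (k - 2 * s)] := by
    apply (Nat.modEq_iff_dvd).mpr
    push_cast at f ⊢
    exact f
  exact g.symm

open Classical in
theorem few_B (k s : ℕ) (hs : 3 * s ≤ k) (S : Finset ℕ) :
    ((range (10 ^ k)).filter fun B => ¬ 2 ^ s ∣ B ∧ ¬ 5 ^ s ∣ B ∧ rv k (B ^ 3) ∈ S).card ≤
      10 ^ (2 * s) * S.card := by
  refine Finset.card_le_mul_card_image_of_maps_to (f := fun B => rv k (B ^ 3)) (t := S) ?_ _ ?_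
  · intro B hB
    exact (Finset.mem_filter.mp hB).2.2.2
  · intro b _
    rw [← Finset.card_range (10 ^ (2 * s))]
    apply Finset.card_le_card_of_injOn (fun B => B / 10 ^ (k - 2 * s))
    · intro B hB
      have hB' := Finset.mem_filter.mp (Finset.mem_coe.mp hB)
      have hB2 := Finset.mem_filter.mp hB'.1
      have hB3 := Finset.mem_range.mp hB2.1
      rw [Finset.mem_coe, Finset.mem_range]
      apply Nat.div_lt_of_lt_mul
      rw [← pow_add, show k - 2 * s + 2 * s = k by omega]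
      exact hB3
    · intro B hB B' hB' hd
      have h1 := Finset.mem_filter.mp (Finset.mem_coe.mp hB)
      have h1' := Finset.mem_filter.mp (Finset.mem_coe.mp hB')
      have h2 := (Finset.mem_filter.mp h1.1).2
      have h3 : rv k (B ^ 3) = rv k (B' ^ 3) := by
        have u1 : rv k (B ^ 3) = b := h1.2
        have u2 : rv k (B' ^ 3) = b := h1'.2
        rw [u1, u2]
      have h4 : B ^ 3 % 10 ^ k = B' ^ 3 % 10 ^ k := by
        rw [← rv_rv, ← rv_rv, h3]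
      have h5 := cube_inj k s B B' hs h4 h2.1 h2.2.1
      have h6 : B / 10 ^ (k - 2 * s) = B' / 10 ^ (k - 2 * s) := hd
      rw [← Nat.div_add_mod B (10 ^ (k - 2 * s)), ← Nat.div_add_mod B' (10 ^ (k - 2 * s)), h5, h6]

theorem G.card_dvd (n d : ℕ) (hd : 0 < d) (h : d ∣ n) :
    ((range n).filter fun B => d ∣ B).card * d ≤ n := by
  have h1 : ((range n).filter fun B => d ∣ B) ⊆ (range (n / d)).image fun i => d * i := by
    intro B hB
    obtain ⟨hB1, c, rfl⟩ := Finset.mem_filter.mp hB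
    rw [Finset.mem_image]
    refine ⟨c, ?_, rfl⟩
    rw [Finset.mem_range] at hB1 ⊢
    rw [Nat.lt_div_iff_mul_lt_of_dvd hd.ne' h]
    rw [mul_comm]
    exact hB1
  have h2 := (Finset.card_le_card h1).trans Finset.card_image_le
  rw [Finset.card_range] at h2
  calc _ ≤ n / d * d := Nat.mul_le_mul_right _ h2
    _ ≤ n := Nat.div_mul_le_self n d

open Classical in
theorem few_div (k s : ℕ) (hs : s ≤ k) :
    ((range (10 ^ k)).filter fun B => 2 ^ s ∣ B ∨ 5 ^ s ∣ B).card * 2 ^ s ≤ 2 * 10 ^ k := by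
  have h2 : 2 ^ s ∣ 10 ^ k := (pow_dvd_pow_of_dvd (by norm_num) s).trans (pow_dvd_pow 10 hs)
  have h5 : 5 ^ s ∣ 10 ^ k := (pow_dvd_pow_of_dvd (by norm_num) s).trans (pow_dvd_pow 10 hs)
  have e2 := G.card_dvd (10 ^ k) (2 ^ s) (by positivity) h2
  have e5 := G.card_dvd (10 ^ k) (5 ^ s) (by positivity) h5
  rw [Finset.filter_or]
  have h25 : 2 ^ s ≤ 5 ^ s := Nat.pow_le_pow_left (by norm_num) s
  have hu := Finset.card_union_le ((range (10 ^ k)).filter fun B => 2 ^ s ∣ B)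
    ((range (10 ^ k)).filter fun B => 5 ^ s ∣ B)
  have e5' : ((range (10 ^ k)).filter fun B => 5 ^ s ∣ B).card * 2 ^ s ≤ 10 ^ k :=
    (Nat.mul_le_mul_left _ h25).trans e5
  calc _ ≤ (((range (10 ^ k)).filter fun B => 2 ^ s ∣ B).card +
        ((range (10 ^ k)).filter fun B => 5 ^ s ∣ B).card) * 2 ^ s := Nat.mul_le_mul_right _ hu
    _ ≤ 2 * 10 ^ k := by
      rw [add_mul, two_mul]
      exact Nat.add_le_add e2 e5'

theorem G.part (p s M B g : ℕ) (hp : p.Prime) (hc : Nat.Coprime p 3) (hB : ¬ p ^ s ∣ B)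
    (hg : g ∣ 3 * B ^ 2) : Nat.gcd g (p ^ M) ∣ p ^ (2 * s) := by
  obtain ⟨a, -, ha⟩ := (Nat.dvd_prime_pow hp).mp (Nat.gcd_dvd_right g (p ^ M))
  rw [ha]
  apply pow_dvd_pow
  by_contra hcon
  push Not at hcon
  apply hB
  have h1 : p ^ (2 * s) ∣ 3 * B ^ 2 := by
    refine (pow_dvd_pow p hcon.le).trans ?_
    rw [← ha]
    exact (Nat.gcd_dvd_left _ _).trans hg
  have h2 : p ^ (2 * s) ∣ B ^ 2 := (Nat.Coprime.pow_left _ hc).dvd_of_dvd_mul_left h1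
  have h3 : (p ^ s) ^ 2 ∣ B ^ 2 := by
    rw [← pow_mul, mul_comm s 2]
    exact h2
  exact (Nat.pow_dvd_pow_iff (by norm_num)).mp h3

theorem gcd_dvd (s M B : ℕ) (h2 : ¬ 2 ^ s ∣ B) (h5 : ¬ 5 ^ s ∣ B) :
    Nat.gcd (3 * B ^ 2) (10 ^ M) ∣ 10 ^ (2 * s) := by
  set g := Nat.gcd (3 * B ^ 2) (10 ^ M) with hgdef
  have hg1 : g ∣ 3 * B ^ 2 := Nat.gcd_dvd_left _ _
  have hg2 : g ∣ 10 ^ M := Nat.gcd_dvd_right _ _
  have e2 := G.part 2 s M B g Nat.prime_two (by norm_num) h2 hg1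
  have e5 := G.part 5 s M B g Nat.prime_five (by norm_num) h5 hg1
  have hcop : Nat.Coprime (2 ^ M) (5 ^ M) := Nat.Coprime.pow _ _ (by norm_num)
  have h10 : (10 : ℕ) ^ M = 2 ^ M * 5 ^ M := by rw [← mul_pow]; norm_num
  have hgg : g = Nat.gcd g (2 ^ M) * Nat.gcd g (5 ^ M) := by
    rw [← Nat.Coprime.gcd_mul g hcop, ← h10]
    exact (Nat.gcd_eq_left hg2).symm
  rw [hgg, show (10 : ℕ) ^ (2 * s) = 2 ^ (2 * s) * 5 ^ (2 * s) by rw [← mul_pow]; norm_num]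
  exact mul_dvd_mul e2 e5

end Pool.Agent.CP62
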