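import Pool.Agent.CP62.CpA

/-!
# Palindromic cubes: the trivial bound
-/

namespace Pool.Agent.CP62

open Finset

private lemma triv_lt (d D K n n' : ℕ) (hn : n ∈ cp d D) (hn' : n' ∈ cp d D) (hK : d + 2 < 2 * K)
    (hKD : K ≤ D) (hD : D ≤ 3 * d) (h : n % 10 ^ K = n' % 10 ^ K) (hlt : n < n') : False := by
  simp only [cp, mem_filter, mem_range] at hn hn'
  obtain ⟨_, hn1, hn2, hn3, hn4⟩ := hn
  obtain ⟨_, hn1', hn2', hn3', hn4'⟩ := hn'
  have hmod : n ^ 3 % 10 ^ K = n' ^ 3 % 10 ^ K := Nat.ModEq.pow 3 h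
  have e1 := pal_top (n ^ 3) D K hn2 hn3 hn4 hKD
  have e2 := pal_top (n' ^ 3) D K hn2' hn3' hn4' hKD
  have e3 : rv K (n ^ 3) = rv K (n' ^ 3) := by
    rw [← rv_mod K (n ^ 3), ← rv_mod K (n' ^ 3), hmod]
  have hdiv : n ^ 3 / 10 ^ (D - K) = n' ^ 3 / 10 ^ (D - K) := by rw [e1, e2, e3]
  have hpos : 0 < 10 ^ (D - K) := by positivity
  have h1 : n' ^ 3 < n ^ 3 + 10 ^ (D - K) := by
    have a1 := Nat.div_add_mod (n ^ 3) (10 ^ (D - K))
    have a2 := Nat.div_add_mod (n' ^ 3) (10 ^ (D - K))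
    have a3 := Nat.mod_lt (n' ^ 3) hpos
    rw [hdiv] at a1
    omega
  have h2 : n + 10 ^ K ≤ n' := by
    have hd : 10 ^ K ∣ n' - n := (Nat.modEq_iff_dvd' hlt.le).1 h
    have := Nat.le_of_dvd (Nat.sub_pos_of_lt hlt) hd
    omega
  have h3 : (n + 10 ^ K) ^ 3 ≤ n' ^ 3 := Nat.pow_le_pow_left h2 3
  have h4 : n ^ 3 + 3 * n ^ 2 * 10 ^ K ≤ (n + 10 ^ K) ^ 3 := by
    have : (n + 10 ^ K) ^ 3 = n ^ 3 + 3 * n ^ 2 * 10 ^ K + (3 * n * (10 ^ K) ^ 2 + (10 ^ K) ^ 3) := by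
      ring
    omega
  have h5 : 3 * n ^ 2 * 10 ^ K < 10 ^ (D - K) := by omega
  have h6 : 10 ^ (2 * d) ≤ 100 * n ^ 2 := by
    have := Nat.pow_le_pow_left hn1 2
    calc 10 ^ (2 * d) = (10 ^ d) ^ 2 := by rw [← pow_mul, mul_comm]
      _ ≤ (10 * n) ^ 2 := this
      _ = 100 * n ^ 2 := by ring
  have h7 : 3 * 10 ^ (2 * d + K) < 10 ^ (D - K + 2) := by
    calc 3 * 10 ^ (2 * d + K) = 3 * 10 ^ (2 * d) * 10 ^ K := by rw [pow_add]; ring
      _ ≤ 3 * (100 * n ^ 2) * 10 ^ K := by gcongr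
      _ = 100 * (3 * n ^ 2 * 10 ^ K) := by ring
      _ < 100 * 10 ^ (D - K) := by omega
      _ = 10 ^ (D - K + 2) := by rw [pow_add]; ring
  have h8 : 10 ^ (D - K + 2) ≤ 10 ^ (2 * d + K) := Nat.pow_le_pow_right (by norm_num) (by omega)
  omega

theorem triv_inj (d D K n n' : ℕ) (hn : n ∈ cp d D) (hn' : n' ∈ cp d D) (hK : d + 2 < 2 * K)
    (hKD : K ≤ D) (hD : D ≤ 3 * d) (h : n % 10 ^ K = n' % 10 ^ K) : n = n' := by
  rcases lt_trichotomy n n' with hlt | heq | hgt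
  · exact (triv_lt d D K n n' hn hn' hK hKD hD h hlt).elim
  · exact heq
  · exact (triv_lt d D K n' n hn' hn hK hKD hD h.symm hgt).elim

theorem triv_count (d D k j B : ℕ) (hK : d + 2 < 2 * (k + j)) (hKD : k + j ≤ D) (hD : D ≤ 3 * d) :
    ((cp d D).filter fun n => n % 10 ^ k = B).card ≤ 10 ^ j := by
  have key : ((cp d D).filter fun n => n % 10 ^ k = B).card ≤ (range (10 ^ j)).card := by
    apply Finset.card_le_card_of_injOn (fun n => n / 10 ^ k % 10 ^ j)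
    · intro n _
      simp only [coe_range, Set.mem_Iio]
      exact Nat.mod_lt _ (by positivity)
    · intro n hn n' hn' hnn
      rw [Finset.mem_coe, Finset.mem_filter] at hn hn'
      refine triv_inj d D (k + j) n n' hn.1 hn'.1 hK hKD hD ?_
      have hnn' : n / 10 ^ k % 10 ^ j = n' / 10 ^ k % 10 ^ j := hnn
      rw [pow_add, Nat.mod_mul, Nat.mod_mul, hn.2, hn'.2, hnn']
  simpa using key

end Pool.Agent.CP62
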