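import Pool.Agent.CP62.CpA
import Pool.Agent.CP62.CpB
import Pool.Agent.CP62.CpC
import Pool.Agent.CP62.CpD
import Pool.Agent.CP62.CpG

/-!
# Palindromic cubes in one residue class
-/

namespace Pool.Agent.CP62

open Finset

/-- the digits of a cube above the first block -/
lemma bottom (k M Y B : ℕ) (hMk : M ≤ k) :
    ∃ c : ℕ, (10 ^ k * Y + B) ^ 3 / 10 ^ k = B ^ 3 / 10 ^ k + 3 * B ^ 2 * Y + 10 ^ M * c := by
  refine ⟨10 ^ (k - M) * (3 * B * Y ^ 2 + 10 ^ k * Y ^ 3), ?_⟩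
  have h1 : (10 ^ k * Y + B) ^ 3 = B ^ 3 + 10 ^ k * (3 * B ^ 2 * Y +
      10 ^ k * (3 * B * Y ^ 2 + 10 ^ k * Y ^ 3)) := by ring
  have h2 : 10 ^ M * (10 ^ (k - M) * (3 * B * Y ^ 2 + 10 ^ k * Y ^ 3)) =
      10 ^ k * (3 * B * Y ^ 2 + 10 ^ k * Y ^ 3) := by
    rw [← mul_assoc, ← pow_add, Nat.add_sub_cancel' hMk]
  rw [h1, Nat.add_mul_div_left _ _ (by positivity), h2, Nat.add_assoc]

open Classical in
/-- one residue class -/
theorem one_class (d D k L M s h B r : ℕ) (hd : 1 ≤ d) (hdk : d = 2 * k + L)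
    (hM : 2 * M = L + 2 + 2 * s + h) (hMk : M + 1 ≤ k) (hD1 : 3 * d ≤ D + 2) (hD2 : D ≤ 3 * d)
    (h2 : ¬ 2 ^ s ∣ B) (h5 : ¬ 5 ^ s ∣ B)
    (hgood : ∀ G, 1 ≤ G → G < 10 ^ (2 * s + h) → r ≤ (pos (D - k) k M (rv k (B ^ 3)) G).card) :
    (((cp d D).filter fun n => n % 10 ^ k = B).card : ℝ) ≤
      2 * (10 ^ M / 10 ^ h + 10 ^ M * (1 - 1 / 10 ^ 6) ^ (r / 2)) := by
  set C : Finset ℕ := (cp d D).filter fun n => n % 10 ^ k = B with hC
  rcases C.eq_empty_or_nonempty with hemp | ⟨n0, hn0⟩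
  · rw [hemp, Finset.card_empty]
    push_cast
    positivity
  have hmem : ∀ n ∈ C, 10 ^ d ≤ 10 * n ∧ 10 ^ D ≤ 10 * n ^ 3 ∧ n ^ 3 < 10 ^ D ∧
      (Nat.digits 10 (n ^ 3)).reverse = Nat.digits 10 (n ^ 3) ∧ n % 10 ^ k = B := by
    intro n hn
    rw [hC, Finset.mem_filter, cp, Finset.mem_filter] at hn
    exact ⟨hn.1.2.1, hn.1.2.2.1, hn.1.2.2.2.1, hn.1.2.2.2.2, hn.2⟩
  set P : ℕ := rv k (B ^ 3) with hP
  have hkD : k ≤ D := by omega
  have hkMD : k + M ≤ D := by omega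
  have hrvk : ∀ n ∈ C, rv k (n ^ 3) = P := by
    intro n hn
    obtain ⟨_, _, _, _, hB⟩ := hmem n hn
    rw [hP, ← rv_mod k (n ^ 3), ← rv_mod k (B ^ 3), ← hB]
    congr 1
    exact Nat.pow_mod n 3 (10 ^ k)
  have hPlt : P < 10 ^ k := rv_lt k _
  have hPge : 10 ^ k ≤ 10 * P := by
    obtain ⟨_, hD', hD'', hpal, _⟩ := hmem n0 hn0
    have h1 := pal_top (n0 ^ 3) D k hD' hD'' hpal hkD
    rw [hrvk n0 hn0] at h1
    obtain ⟨k', hk'⟩ : ∃ k', k = k' + 1 := ⟨k - 1, by omega⟩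
    have h3 : 10 ^ D = 10 * (10 ^ k' * 10 ^ (D - k)) := by
      rw [← pow_add, ← pow_succ']
      congr 1
      omega
    have h4 : 10 ^ k' * 10 ^ (D - k) ≤ n0 ^ 3 := by omega
    have h5 : 10 ^ k' ≤ n0 ^ 3 / 10 ^ (D - k) :=
      (Nat.le_div_iff_mul_le (by positivity)).mpr h4
    rw [h1] at h5
    rw [hk', pow_succ']
    omega
  have hPpos : 0 < P := by
    have : 0 < 10 ^ k := by positivity
    omega
  set E : ℕ := D - k with hE
  obtain ⟨hF1, hF2, hF3⟩ := cr_bounds d D k P hd hkD hD1 hD2 hPge hPlt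
  rw [← hE] at hF1 hF2 hF3
  set F : ℝ := cr E P with hF
  have hF0 : 0 < F := by
    have : (0 : ℝ) < 10 ^ d := by positivity
    linarith
  -- the gcd
  set Λ : ℕ := 3 * B ^ 2 with hΛ
  set g : ℕ := Nat.gcd Λ (10 ^ M) with hg
  have hgdvd : g ∣ 10 ^ (2 * s) := gcd_dvd s M B h2 h5
  have hgpos : 0 < g := Nat.gcd_pos_of_pos_right _ (by positivity)
  have hgle : g ≤ 10 ^ (2 * s) := Nat.le_of_dvd (by positivity) hgdvd
  have hgleR : (g : ℝ) ≤ 10 ^ (2 * s) := by exact_mod_cast hgle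
  have hgposR : (0 : ℝ) < g := by exact_mod_cast hgpos
  obtain ⟨a, b, hab⟩ : ∃ a b : ℤ, (g : ℤ) = Λ * a + 10 ^ M * b := by
    refine ⟨Nat.gcdA Λ (10 ^ M), Nat.gcdB Λ (10 ^ M), ?_⟩
    have := Nat.gcd_eq_gcd_ab Λ (10 ^ M)
    push_cast at this
    exact this
  set γ : ℕ := B ^ 3 / 10 ^ k with hγ
  set β : ℝ := bet E k M P with hβ
  have hβ' : β = F / (3 * P * 10 ^ (M + k)) := rfl
  set φ0 : ℝ := (-(a : ℝ) * γ - g * ((F - B) / 10 ^ k)) / 10 ^ M with hφ0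
  let φ : ℕ → ℝ := fun W => ((a : ℝ) * (rv M W : ℕ) - a * γ - g * ((F - B) / 10 ^ k) - g * β * W) / 10 ^ M
  -- the key facts
  have key : ∀ n ∈ C, ∃ c : ℤ, ((rv M (rv M (n ^ 3 / 10 ^ k)) : ℕ) : ℤ) =
      γ + Λ * (n / 10 ^ k : ℕ) + 10 ^ M * c := by
    intro n hn
    obtain ⟨_, _, _, _, hB⟩ := hmem n hn
    obtain ⟨c, hc⟩ := bottom k M (n / 10 ^ k) B (by omega)
    have hn' : 10 ^ k * (n / 10 ^ k) + B = n := by
      rw [← hB]
      exact Nat.div_add_mod n (10 ^ k)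
    rw [hn'] at hc
    refine ⟨(c : ℤ) - (n ^ 3 / 10 ^ k / 10 ^ M : ℕ), ?_⟩
    rw [rv_rv]
    have h6 := Nat.div_add_mod (n ^ 3 / 10 ^ k) (10 ^ M)
    have h7 : ((n ^ 3 / 10 ^ k % 10 ^ M : ℕ) : ℤ) = (n ^ 3 / 10 ^ k : ℕ) -
        10 ^ M * (n ^ 3 / 10 ^ k / 10 ^ M : ℕ) := by
      have h8 : ((10 ^ M * (n ^ 3 / 10 ^ k / 10 ^ M) + n ^ 3 / 10 ^ k % 10 ^ M : ℕ) : ℤ) =
          (n ^ 3 / 10 ^ k : ℕ) := by rw [h6]
      push_cast at h8 ⊢
      linarith
    rw [h7]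
    have h9 : ((n ^ 3 / 10 ^ k : ℕ) : ℤ) = γ + Λ * (n / 10 ^ k : ℕ) + 10 ^ M * c := by
      have : ((n ^ 3 / 10 ^ k : ℕ) : ℤ) = ((B ^ 3 / 10 ^ k + 3 * B ^ 2 * (n / 10 ^ k) + 10 ^ M * c : ℕ) : ℤ) := by
        rw [hc]
      rw [this, hγ, hΛ]
      push_cast
      ring
    rw [h9]
    ring
  have hrep : ∀ n ∈ C, (n : ℝ) = 10 ^ k * (n / 10 ^ k : ℕ) + B := by
    intro n hn
    obtain ⟨_, _, _, _, hB⟩ := hmem n hn
    have : 10 ^ k * (n / 10 ^ k) + B = n := by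
      rw [← hB]
      exact Nat.div_add_mod n (10 ^ k)
    exact_mod_cast this.symm
  have htop : ∀ n ∈ C, |(n : ℝ) - F - F * (rv M (n ^ 3 / 10 ^ k) : ℕ) / (3 * P * 10 ^ M)| ≤
      F * 10 / (10 ^ M * 10 ^ k) := by
    intro n hn
    obtain ⟨_, hD', hD'', hpal, hB⟩ := hmem n hn
    refine top_lin n P (rv M (n ^ 3 / 10 ^ k)) E M k (by omega) hMk (by omega) ?_ (rv_lt _ _) hPge
    have h1 := pal_top (n ^ 3) D (k + M) hD' hD'' hpal hkMD
    rw [rv_add, hrvk n hn] at h1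
    rw [← h1]
    congr 2
    omega
  have h10 : ((10 : ℝ) ^ M * 10 ^ k) * (10 ^ M * 10 ^ k) = 10 ^ d * 10 * 10 ^ (2 * s) * (10 * 10 ^ h) := by
    rw [← pow_add, ← pow_add, ← pow_succ, ← pow_succ', ← pow_add, ← pow_add]
    congr 1
    omega
  -- the phase is close to an integer
  have hphase : ∀ n ∈ C, ∃ z : ℤ, |φ (rv M (n ^ 3 / 10 ^ k)) - z| ≤ 1 / (8 * ((10 ^ h : ℕ) : ℝ)) := by
    intro n hn
    obtain ⟨c, hc⟩ := key n hn
    refine ⟨-(b * (n / 10 ^ k : ℕ)) + a * c, ?_⟩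
    set Y : ℕ := n / 10 ^ k with hY
    set W : ℕ := rv M (n ^ 3 / 10 ^ k) with hW
    have h1 := htop n hn
    rw [← hW] at h1
    have h3 := hrep n hn
    rw [← hY] at h3
    have hcR : ((rv M W : ℕ) : ℝ) = γ + Λ * Y + 10 ^ M * c := by exact_mod_cast hc
    have habR : (g : ℝ) = Λ * a + 10 ^ M * b := by exact_mod_cast hab
    have h4 : φ W - ((-(b * (Y : ℤ)) + a * c : ℤ) : ℝ) =
        g / (10 ^ M * 10 ^ k) * ((n : ℝ) - F - F * W / (3 * P * 10 ^ M)) := by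
      show ((a : ℝ) * (rv M W : ℕ) - a * γ - g * ((F - B) / 10 ^ k) - g * β * W) / 10 ^ M - _ = _
      rw [hcR, h3, hβ', pow_add]
      push_cast
      have hPR : (P : ℝ) ≠ 0 := by exact_mod_cast hPpos.ne'
      have e1 : (a : ℝ) * Λ = g - 10 ^ M * b := by rw [habR]; ring
      field_simp
      ring_nf
      have e2 : (a : ℝ) = a := rfl
      linear_combination (Y * (10 : ℝ) ^ k * P * 10 ^ M * 3) * e1
    rw [h4, abs_mul, abs_of_nonneg (by positivity)]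
    refine le_trans (mul_le_mul_of_nonneg_left h1 (by positivity)) ?_
    rw [div_mul_div_comm, div_le_div_iff₀ (by positivity) (by positivity), h10]
    push_cast
    have h6 : (g : ℝ) * F ≤ 10 ^ (2 * s) * 10 ^ d :=
      mul_le_mul hgleR hF2 hF0.le (by positivity)
    have h7 : (0 : ℝ) < 10 ^ h := by positivity
    nlinarith [mul_le_mul_of_nonneg_right h6 h7.le]
  -- injectivity
  have hinj : Set.InjOn (fun n => rv M (n ^ 3 / 10 ^ k)) (C : Set ℕ) := by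
    intro n hn n' hn' hnn
    rw [Finset.mem_coe] at hn hn'
    simp only at hnn
    obtain ⟨c, hc⟩ := key n hn
    obtain ⟨c', hc'⟩ := key n' hn'
    have t1 := htop n hn
    have t2 := htop n' hn'
    rw [hnn] at hc t1
    have r1 := hrep n hn
    have r2 := hrep n' hn'
    set Y : ℕ := n / 10 ^ k with hY
    set Y' : ℕ := n' / 10 ^ k with hY'
    by_contra hne
    have hYne : (Y : ℤ) ≠ Y' := by
      intro hYY
      apply hne
      have : (n : ℝ) = n' := by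
        rw [r1, r2]
        have : (Y : ℝ) = Y' := by exact_mod_cast hYY
        rw [this]
      exact_mod_cast this
    -- `10 ^ M` divides `g (Y - Y')`
    have hdiv : (g : ℤ) * (Y - Y') = 10 ^ M * (b * (Y - Y') + a * (c' - c)) := by
      have e1 : (Λ : ℤ) * (Y - Y') = 10 ^ M * (c' - c) := by linarith
      rw [hab]
      linear_combination a * e1
    have hne0 : b * ((Y : ℤ) - Y') + a * (c' - c) ≠ 0 := by
      intro h0
      rw [h0, mul_zero] at hdiv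
      rcases mul_eq_zero.mp hdiv with h | h
      · exact hgpos.ne' (by exact_mod_cast h)
      · exact hYne (sub_eq_zero.mp h)
    have h1 : (1 : ℝ) ≤ |((b * ((Y : ℤ) - Y') + a * (c' - c) : ℤ) : ℝ)| := by
      rw [← Int.cast_abs]
      exact_mod_cast Int.one_le_abs hne0
    have h3 : (10 : ℝ) ^ M ≤ g * |(Y : ℝ) - Y'| := by
      have e1 : (g : ℝ) * ((Y : ℝ) - Y') = 10 ^ M * ((b * ((Y : ℤ) - Y') + a * (c' - c) : ℤ) : ℝ) := by
        exact_mod_cast hdiv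
      have e2 : (g : ℝ) * |(Y : ℝ) - Y'| = |(g : ℝ) * ((Y : ℝ) - Y')| := by
        rw [abs_mul, abs_of_pos hgposR]
      rw [e2, e1, abs_mul, abs_of_pos (by positivity)]
      nlinarith [h1, (by positivity : (0 : ℝ) < 10 ^ M)]
    have h4 : |(n : ℝ) - n'| = 10 ^ k * |(Y : ℝ) - Y'| := by
      rw [r1, r2]
      have : (10 : ℝ) ^ k * Y + B - (10 ^ k * Y' + B) = 10 ^ k * ((Y : ℝ) - Y') := by ring
      rw [this, abs_mul, abs_of_pos (by positivity)]
    have h5 : |(n : ℝ) - n'| ≤ 2 * (F * 10 / (10 ^ M * 10 ^ k)) := by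
      have : (n : ℝ) - n' = ((n : ℝ) - F - F * (rv M (n' ^ 3 / 10 ^ k) : ℕ) / (3 * P * 10 ^ M)) -
          ((n' : ℝ) - F - F * (rv M (n' ^ 3 / 10 ^ k) : ℕ) / (3 * P * 10 ^ M)) := by ring
      rw [this]
      refine le_trans (abs_sub _ _) ?_
      linarith
    have h6 : (10 : ℝ) ^ M * 10 ^ k ≤ g * |(n : ℝ) - n'| := by
      rw [h4]
      nlinarith [mul_le_mul_of_nonneg_right h3 (by positivity : (0 : ℝ) ≤ 10 ^ k)]
    have h7 : (10 : ℝ) ^ M * 10 ^ k ≤ 10 ^ (2 * s) * (2 * (10 ^ d * 10 / (10 ^ M * 10 ^ k))) := by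
      refine le_trans h6 (mul_le_mul hgleR (le_trans h5 ?_) (abs_nonneg _) (by positivity))
      refine mul_le_mul_of_nonneg_left ?_ (by norm_num)
      exact div_le_div_of_nonneg_right (by linarith) (by positivity)
    have h8 : ((10 : ℝ) ^ M * 10 ^ k) * (10 ^ M * 10 ^ k) ≤ 10 ^ (2 * s) * (2 * (10 ^ d * 10)) := by
      have h9 := mul_le_mul_of_nonneg_right h7 (by positivity : (0 : ℝ) ≤ 10 ^ M * 10 ^ k)
      refine le_trans h9 (le_of_eq ?_)
      field_simp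
    rw [h10] at h8
    have h11 : (1 : ℝ) ≤ 10 ^ h := one_le_pow₀ (by norm_num)
    have h12 : (0 : ℝ) < 10 ^ d * 10 * 10 ^ (2 * s) := by positivity
    nlinarith [mul_le_mul_of_nonneg_left h11 h12.le]
  -- the exponential sums
  have hfej := fejer_count (range (10 ^ M)) φ (10 ^ h) (Nat.one_le_pow _ _ (by norm_num))
    (10 ^ M * (1 - 1 / 10 ^ 6) ^ (r / 2)) (by positivity) (by
      intro G hG1 hG2
      have hsum : ∀ W ∈ range (10 ^ M), e (G * φ W) = e (G * φ0 + ∑ i ∈ range M,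
          ((W / 10 ^ i % 10 : ℕ) : ℝ) * (G * ((a * 10 ^ (M - 1 - i) - g * β * 10 ^ i) / 10 ^ M))) := by
        intro W hW
        rw [Finset.mem_range] at hW
        congr 1
        have e1 : ((rv M W : ℕ) : ℝ) = ∑ i ∈ range M, ((W / 10 ^ i % 10 : ℕ) : ℝ) * 10 ^ (M - 1 - i) := by
          unfold rv
          push_cast
          rfl
        have e2 : (W : ℝ) = ∑ i ∈ range M, ((W / 10 ^ i % 10 : ℕ) : ℝ) * 10 ^ i := by
          have e3 := sum_digits M W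
          rw [Nat.mod_eq_of_lt hW] at e3
          have e4 : ((∑ i ∈ range M, (W / 10 ^ i % 10) * 10 ^ i : ℕ) : ℝ) = W := by rw [e3]
          rw [← e4]
          push_cast
          rfl
        have e5 : ∑ i ∈ range M, ((W / 10 ^ i % 10 : ℕ) : ℝ) *
            (G * ((a * 10 ^ (M - 1 - i) - g * β * 10 ^ i) / 10 ^ M)) =
            G * ((a * (rv M W : ℕ) - g * β * W) / 10 ^ M) := by
          rw [e1]
          conv_rhs => rw [e2]
          rw [Finset.mul_sum, Finset.mul_sum, ← Finset.sum_sub_distrib, Finset.sum_div,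
            Finset.mul_sum]
          refine Finset.sum_congr rfl (fun i _ => ?_)
          ring
        rw [e5, hφ0]
        show (G : ℝ) * (((a : ℝ) * (rv M W : ℕ) - a * γ - g * ((F - B) / 10 ^ k) - g * β * W) / 10 ^ M) = _
        ring
      rw [Finset.sum_congr rfl hsum, digit_sum]
      refine prod_bound M r _ ((G * g : ℕ) * β / 10 ^ M) ?_ ?_
      · intro i hi
        have e1 : (10 : ℝ) ^ (M - 1 - i) = 10 * 10 ^ (M - 1 - (i + 1)) := by
          rw [← pow_succ']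
          congr 1
          omega
        rw [e1]
        push_cast
        ring
      · have := hgood (G * g) (Nat.mul_pos hG1 hgpos) (by
          rw [pow_add, Nat.mul_comm (10 ^ (2 * s))]
          exact Nat.mul_lt_mul_of_lt_of_le hG2 hgle (by positivity))
        exact this)
  refine le_trans ?_ (le_trans hfej (le_of_eq ?_))
  · have : C.card ≤ ((range (10 ^ M)).filter fun j => ∃ z : ℤ, |φ j - z| ≤
        1 / (8 * ((10 ^ h : ℕ) : ℝ))).card := by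
      refine Finset.card_le_card_of_injOn (fun n => rv M (n ^ 3 / 10 ^ k)) ?_ hinj
      intro n hn
      rw [Finset.mem_coe] at hn
      rw [Finset.mem_coe, Finset.mem_filter, Finset.mem_range]
      exact ⟨rv_lt _ _, hphase n hn⟩
    exact_mod_cast this
  · rw [Finset.card_range]
    push_cast
    ring

end Pool.Agent.CP62
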