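import Pool.Agent.CP62.CpE
import Pool.Agent.CP62.CpF

/-!
# Palindromic cubes: the number of bad `P`
-/

namespace Pool.Agent.CP62

open Finset

open Classical in
/-- the number of `P` which are bad for some `G` -/
theorem few_bad (d D k L M h t : ℕ) (hd : 1 ≤ d) (hdk : d = 2 * k + L) (hkD : k ≤ D)
    (hh : 2 * M = L + 2 + h) (hM : 1 ≤ M) (hMt : M = 20 * t) (hL : L ≤ M + k + 2)
    (hD1 : 3 * d ≤ D + 2) (hD2 : D ≤ 3 * d) :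
    (((Ico 1 (10 ^ k)).filter fun P => 10 ^ k ≤ 10 * P ∧
      ∃ G, 1 ≤ G ∧ G < 10 ^ h ∧ (pos (D - k) k M P G).card < 2 * t).card) * 10 ^ L ≤
      10 ^ h * (5 * 10 ^ (5 * t)) * 10 ^ (M + k + 3) := by
  obtain ⟨R, hR, hR2⟩ := few_round t M hMt
    {y : ℝ | ∃ G P : ℕ, G < 10 ^ h ∧ 10 ^ k ≤ 10 * P ∧ P < 10 ^ k ∧
      (pos (D - k) k M P G).card < 2 * t ∧ y = 99 * (G * bet (D - k) k M P / 10 ^ M)}
    (by
      rintro y ⟨G, P, hG, hP1, hP2, _, rfl⟩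
      exact y_bounds d D k L M h G P hd hdk hkD hh hD1 hD2 hG hP1 hP2)
    (by
      rintro y ⟨G, P, _, _, _, hpos, rfl⟩
      exact hpos)
  have hsub : ((Ico 1 (10 ^ k)).filter fun P => 10 ^ k ≤ 10 * P ∧
      ∃ G, 1 ≤ G ∧ G < 10 ^ h ∧ (pos (D - k) k M P G).card < 2 * t) ⊆
      ((Ico 1 (10 ^ h) : Finset ℕ) ×ˢ R).biUnion fun p : ℕ × ℤ => (Ico 1 (10 ^ k)).filter fun P => 10 ^ k ≤ 10 * P ∧
        |99 * ((p.1 : ℝ) * bet (D - k) k M P / 10 ^ M) * 10 ^ (M - 1) - (p.2 : ℝ)| ≤ 1 / 2 := by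
    intro P hP
    rw [mem_filter] at hP
    obtain ⟨hPI, hP1, G, hG1, hG2, hpos⟩ := hP
    have hP2 : P < 10 ^ k := (mem_Ico.mp hPI).2
    obtain ⟨z, hz, hzz⟩ := hR2 _ ⟨G, P, hG2, hP1, hP2, hpos, rfl⟩
    rw [mem_biUnion]
    refine ⟨(G, z), mem_product.mpr ⟨mem_Ico.mpr ⟨hG1, hG2⟩, hz⟩, ?_⟩
    rw [mem_filter]
    exact ⟨hPI, hP1, hzz⟩
  have h1 := (card_le_card hsub).trans card_biUnion_le
  calc _ ≤ (∑ p ∈ (Ico 1 (10 ^ h) : Finset ℕ) ×ˢ R, ((Ico 1 (10 ^ k)).filter fun P => 10 ^ k ≤ 10 * P ∧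
        |99 * ((p.1 : ℝ) * bet (D - k) k M P / 10 ^ M) * 10 ^ (M - 1) - (p.2 : ℝ)| ≤ 1 / 2).card) *
          10 ^ L := Nat.mul_le_mul_right _ h1
    _ = ∑ p ∈ (Ico 1 (10 ^ h) : Finset ℕ) ×ˢ R, ((Ico 1 (10 ^ k)).filter fun P => 10 ^ k ≤ 10 * P ∧
        |99 * ((p.1 : ℝ) * bet (D - k) k M P / 10 ^ M) * 10 ^ (M - 1) - (p.2 : ℝ)| ≤ 1 / 2).card *
          10 ^ L := by rw [sum_mul]
    _ ≤ ∑ _p ∈ (Ico 1 (10 ^ h) : Finset ℕ) ×ˢ R, 10 ^ (M + k + 3) := by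
      refine sum_le_sum fun p hp => ?_
      have hG1 := (mem_Ico.mp (mem_product.mp hp).1).1
      exact few_P d D k L M p.1 hd hdk hkD hM hL hD1 hD2 hG1 p.2
    _ = (Ico 1 (10 ^ h) : Finset ℕ).card * R.card * 10 ^ (M + k + 3) := by
      rw [sum_const, card_product, smul_eq_mul]
    _ ≤ 10 ^ h * (5 * 10 ^ (5 * t)) * 10 ^ (M + k + 3) := by
      refine Nat.mul_le_mul_right _ (Nat.mul_le_mul ?_ hR)
      rw [Nat.card_Ico]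
      exact Nat.sub_le _ _

end Pool.Agent.CP62
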