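import Pool.Agent.CP62.Defs
import Pool.Agent.CP62.CpA
import Pool.Agent.CP62.CpG
import Pool.Agent.CP62.CpH
import Pool.Agent.CP62.CpI
import Pool.Agent.CP62.CpJ

/-!
# Palindromic cubes: numbers with `d` digits
-/

namespace Pool.Agent.CP62

open Finset

/-- the number of elements as the sum over the residue classes -/
theorem card_classes (d D k : ℕ) :
    (cp d D).card = ∑ B ∈ range (10 ^ k), ((cp d D).filter fun n => n % 10 ^ k = B).card := by
  refine Finset.card_eq_sum_card_fiberwise (f := fun n => n % 10 ^ k) ?_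
  intro n hn
  simp [Nat.mod_lt _ (show 0 < 10 ^ k by positivity)]

/-- the leading part of the cube is determined by the residue class -/
theorem lead_digit (d D k n : ℕ) (hk : 1 ≤ k) (hkD : k ≤ D) (hn : n ∈ cp d D) :
    10 ^ k ≤ 10 * rv k ((n % 10 ^ k) ^ 3) := by
  unfold cp at hn
  rw [Finset.mem_filter] at hn
  obtain ⟨_, _, h3, h4, h5⟩ := hn
  have hp := pal_top (n ^ 3) D k h3 h4 h5 hkD
  have hr : rv k ((n % 10 ^ k) ^ 3) = rv k (n ^ 3) := by
    rw [← rv_mod k (n ^ 3), ← rv_mod k ((n % 10 ^ k) ^ 3), ← Nat.pow_mod]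
  rw [hr, ← hp]
  have h6 : 10 ^ (k - 1) ≤ n ^ 3 / 10 ^ (D - k) := by
    rw [Nat.le_div_iff_mul_le (by positivity), ← pow_add]
    have h7 : k - 1 + (D - k) = D - 1 := by omega
    rw [h7]
    have h8 : 10 ^ D = 10 * 10 ^ (D - 1) := by
      rw [← pow_succ']
      congr 1
      omega
    omega
  have h9 : 10 ^ k = 10 * 10 ^ (k - 1) := by
    rw [← pow_succ']
    congr 1
    omega
  omega

open Classical in
/-- the splitting into residue classes -/
theorem split_bound (d D k L M m s h t : ℕ) (hd : 1 ≤ d) (hdk : d = 2 * k + L)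
    (hM : 2 * M = L + 2 + 2 * s + h) (hM1 : 1 ≤ M) (hMt : M = 20 * t)
    (hMk : M + 1 ≤ k) (hs : 3 * s ≤ k) (hL : L ≤ M + k + 2) (hm : L + 2 < 2 * (m + 2))
    (hkm : k + (m + 2) ≤ D) (hD1 : 3 * d ≤ D + 2) (hD2 : D ≤ 3 * d) :
    ∃ a b : ℕ, a * 2 ^ s ≤ 2 * 10 ^ k ∧
      b * 10 ^ L ≤ 10 ^ (2 * s) * (10 ^ (2 * s + h) * (5 * 10 ^ (5 * t)) * 10 ^ (M + k + 3)) ∧
      ((cp d D).card : ℝ) ≤ a * 10 ^ (m + 2) + b * 10 ^ (m + 2) +
        10 ^ k * (2 * (10 ^ M / 10 ^ h + 10 ^ M * (1 - 1 / 10 ^ 6) ^ t)) := by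
  have hbad := few_bad d D k L M (2 * s + h) t hd hdk (by omega) (by omega) hM1 hMt hL hD1 hD2
  set Bad : Finset ℕ := (Ico 1 (10 ^ k)).filter fun P => 10 ^ k ≤ 10 * P ∧
      ∃ G, 1 ≤ G ∧ G < 10 ^ (2 * s + h) ∧ (pos (D - k) k M P G).card < 2 * t with hBad
  have hA2 := few_B k s hs Bad
  set A2 : Finset ℕ := (range (10 ^ k)).filter fun B => ¬ 2 ^ s ∣ B ∧ ¬ 5 ^ s ∣ B ∧
      rv k (B ^ 3) ∈ Bad with hA2def
  have hA1 := few_div k s (by omega)
  set A1 : Finset ℕ := (range (10 ^ k)).filter fun B => 2 ^ s ∣ B ∨ 5 ^ s ∣ B with hA1def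
  refine ⟨A1.card, A2.card, hA1, ?_, ?_⟩
  · calc A2.card * 10 ^ L ≤ 10 ^ (2 * s) * Bad.card * 10 ^ L := Nat.mul_le_mul_right _ hA2
      _ = 10 ^ (2 * s) * (Bad.card * 10 ^ L) := by ring
      _ ≤ _ := Nat.mul_le_mul_left _ hbad
  · have hκ : (0 : ℝ) ≤ (1 - 1 / 10 ^ 6) ^ t := by
      apply pow_nonneg
      norm_num
    have hcl : ∀ B ∈ range (10 ^ k), (((cp d D).filter fun n => n % 10 ^ k = B).card : ℝ) ≤
        (if B ∈ A1 then (10 : ℝ) ^ (m + 2) else 0) + (if B ∈ A2 then (10 : ℝ) ^ (m + 2) else 0) +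
          2 * (10 ^ M / 10 ^ h + 10 ^ M * (1 - 1 / 10 ^ 6) ^ t) := by
      intro B hB
      have htriv : (((cp d D).filter fun n => n % 10 ^ k = B).card : ℝ) ≤ 10 ^ (m + 2) := by
        exact_mod_cast triv_count d D k (m + 2) B (by omega) hkm hD2
      have hpos1 : (0 : ℝ) ≤ 2 * (10 ^ M / 10 ^ h + 10 ^ M * (1 - 1 / 10 ^ 6) ^ t) := by
        positivity
      have hpos2 : (0 : ℝ) ≤ 10 ^ (m + 2) := by positivity
      by_cases h1 : B ∈ A1
      · rw [if_pos h1]
        split_ifs <;> linarith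
      · by_cases h2 : B ∈ A2
        · rw [if_pos h2, if_neg h1]
          linarith
        · rw [if_neg h1, if_neg h2]
          rw [hA1def, Finset.mem_filter] at h1
          have h3 : ¬ 2 ^ s ∣ B := fun h => h1 ⟨hB, Or.inl h⟩
          have h4 : ¬ 5 ^ s ∣ B := fun h => h1 ⟨hB, Or.inr h⟩
          rcases Finset.eq_empty_or_nonempty ((cp d D).filter fun n => n % 10 ^ k = B) with he | he
          · rw [he]
            simp only [card_empty, Nat.cast_zero]
            linarith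
          · obtain ⟨n, hn⟩ := he
            rw [Finset.mem_filter] at hn
            have hld := lead_digit d D k n (by omega) (by omega) hn.1
            rw [hn.2] at hld
            have h5 : rv k (B ^ 3) ∉ Bad := by
              intro h6
              apply h2
              rw [hA2def, Finset.mem_filter]
              exact ⟨hB, h3, h4, h6⟩
            have hgood : ∀ G, 1 ≤ G → G < 10 ^ (2 * s + h) →
                2 * t ≤ (pos (D - k) k M (rv k (B ^ 3)) G).card := by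
              intro G hG1 hG2
              by_contra hlt
              push Not at hlt
              apply h5
              rw [hBad, Finset.mem_filter, Finset.mem_Ico]
              refine ⟨⟨?_, rv_lt _ _⟩, hld, G, hG1, hG2, hlt⟩
              have : 10 ^ 1 ≤ 10 ^ k := Nat.pow_le_pow_right (by norm_num) (by omega)
              omega
            have h1c := one_class d D k L M s h B (2 * t) hd hdk hM hMk hD1 hD2 h3 h4 hgood
            rw [Nat.mul_div_cancel_left t (by norm_num)] at h1c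
            linarith
    have hsum := Finset.sum_le_sum hcl
    rw [Finset.sum_add_distrib, Finset.sum_add_distrib, Finset.sum_ite_mem, Finset.sum_ite_mem,
      Finset.sum_const, Finset.sum_const, Finset.sum_const, nsmul_eq_mul, nsmul_eq_mul,
      nsmul_eq_mul, Finset.card_range] at hsum
    have hc : ((cp d D).card : ℝ) =
        ∑ B ∈ range (10 ^ k), (((cp d D).filter fun n => n % 10 ^ k = B).card : ℝ) := by
      rw [card_classes d D k]
      push_cast
      rfl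
    rw [hc]
    refine hsum.trans ?_
    have hi1 : ((range (10 ^ k) ∩ A1).card : ℝ) ≤ A1.card := by
      exact_mod_cast Finset.card_le_card Finset.inter_subset_right
    have hi2 : ((range (10 ^ k) ∩ A2).card : ℝ) ≤ A2.card := by
      exact_mod_cast Finset.card_le_card Finset.inter_subset_right
    have hp : (0 : ℝ) ≤ 10 ^ (m + 2) := by positivity
    push_cast
    have e1 := mul_le_mul_of_nonneg_right hi1 hp
    have e2 := mul_le_mul_of_nonneg_right hi2 hp
    linarith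

theorem per_digit : ∃ T : ℕ, 1 ≤ T ∧ ∃ C : ℝ, 0 < C ∧ ∀ d D : ℕ, 1 ≤ d → 3 * d ≤ D + 2 → D ≤ 3 * d →
    ((cp d D).card : ℝ) ≤ C * (Real.sqrt 10) ^ d / 2 ^ (d / T) := by
  obtain ⟨t₀, ht₀⟩ : ∃ t₀ : ℕ, (1 - 1 / 10 ^ 6 : ℝ) ^ t₀ < 1 / 2000 :=
    exists_pow_lt_of_lt_one (by norm_num) (by norm_num)
  have ht1 : 1 ≤ t₀ := by
    rcases Nat.eq_zero_or_pos t₀ with h | h
    · subst h
      norm_num at ht₀
    · exact h
  refine ⟨120 * t₀, by omega, 20000 + 10 ^ (120 * t₀), by positivity, ?_⟩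
  intro d D hd hD1 hD2
  have hS1 : (1 : ℝ) ≤ Real.sqrt 10 ^ d := one_le_pow₀ (Real.one_le_sqrt.mpr (by norm_num))
  obtain ⟨q, hq⟩ : ∃ q, q = d / (120 * t₀) := ⟨_, rfl⟩
  rw [← hq, le_div_iff₀ (by positivity)]
  have hT1 : (1 : ℝ) ≤ 10 ^ (120 * t₀) := one_le_pow₀ (by norm_num)
  rcases Nat.eq_zero_or_pos q with h0 | h0
  · have hdT : d < 120 * t₀ := by
      rw [h0] at hq
      have := Nat.div_eq_zero_iff.mp hq.symm
      omega
    have hc : (cp d D).card ≤ 10 ^ d := by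
      unfold cp
      exact (card_filter_le _ _).trans (by simp)
    have hc' : ((cp d D).card : ℝ) ≤ 10 ^ (120 * t₀) := by
      calc ((cp d D).card : ℝ) ≤ ((10 ^ d : ℕ) : ℝ) := by exact_mod_cast hc
        _ = 10 ^ d := by push_cast; ring
        _ ≤ 10 ^ (120 * t₀) := pow_le_pow_right₀ (by norm_num) (by omega)
    rw [h0, pow_zero, mul_one]
    nlinarith
  · obtain ⟨t, ht⟩ : ∃ t, t = t₀ * q := ⟨_, rfl⟩
    have hqt : q ≤ t := by
      rw [ht]
      exact Nat.le_mul_of_pos_left q (by omega)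
    have hdq : 120 * t ≤ d := by
      have h1 : d / (120 * t₀) * (120 * t₀) ≤ d := Nat.div_mul_le_self _ _
      rw [← hq] at h1
      rw [ht]
      calc 120 * (t₀ * q) = q * (120 * t₀) := by ring
        _ ≤ d := h1
    obtain ⟨m, hm⟩ : ∃ m, m = 20 * t - 3 * q := ⟨_, rfl⟩
    obtain ⟨k, hk⟩ : ∃ k, k = (d - 2 * m) / 2 := ⟨_, rfl⟩
    obtain ⟨L, hL⟩ : ∃ L, L = d - 2 * k := ⟨_, rfl⟩
    obtain ⟨h, hh⟩ : ∃ h, h = 40 * t - L - 2 - 2 * q := ⟨_, rfl⟩
    obtain ⟨a, b, ha, hb, hcard⟩ := split_bound d D k L (20 * t) m q h t hd (by omega) (by omega)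
      (by omega) rfl (by omega) (by omega) (by omega) (by omega) (by omega) hD1 hD2
    -- the three parts
    have hkm : (10 : ℝ) ^ (k + m) ≤ Real.sqrt 10 ^ d := by
      have h1 : (10 : ℝ) ^ (k + m) = Real.sqrt 10 ^ (2 * (k + m)) := by
        rw [pow_mul, Real.sq_sqrt (by norm_num)]
      rw [h1]
      exact pow_le_pow_right₀ (Real.one_le_sqrt.mpr (by norm_num)) (by omega)
    have p1 : (a : ℝ) * 10 ^ (m + 2) * 2 ^ q ≤ 200 * 10 ^ (k + m) := by
      have h1 : (a : ℝ) * 2 ^ q ≤ 2 * 10 ^ k := by exact_mod_cast ha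
      calc (a : ℝ) * 10 ^ (m + 2) * 2 ^ q = (a * 2 ^ q) * 10 ^ (m + 2) := by ring
        _ ≤ (2 * 10 ^ k) * 10 ^ (m + 2) := mul_le_mul_of_nonneg_right h1 (by positivity)
        _ = 200 * 10 ^ (k + m) := by rw [pow_add, pow_add]; ring
    have p2 : (b : ℝ) * 10 ^ (m + 2) * 2 ^ q ≤ 10000 * 10 ^ (k + m) := by
      have hn : b * 10 ^ (m + 2) * 2 ^ q * 10 ^ L ≤ 10000 * 10 ^ (k + m) * 10 ^ L := by
        have h2q : 2 ^ q ≤ 10 ^ q := Nat.pow_le_pow_left (by norm_num) q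
        calc b * 10 ^ (m + 2) * 2 ^ q * 10 ^ L = (b * 10 ^ L) * 10 ^ (m + 2) * 2 ^ q := by ring
          _ ≤ (10 ^ (2 * q) * (10 ^ (2 * q + h) * (5 * 10 ^ (5 * t)) * 10 ^ (20 * t + k + 3))) *
                10 ^ (m + 2) * 10 ^ q := by gcongr
          _ ≤ (10 ^ (2 * q) * (10 ^ (2 * q + h) * (10 * 10 ^ (5 * t)) * 10 ^ (20 * t + k + 3))) *
                10 ^ (m + 2) * 10 ^ q := by gcongr; norm_num
          _ = 10 ^ (2 * q + (2 * q + h) + 1 + 5 * t + (20 * t + k + 3) + (m + 2) + q) := by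
              simp only [pow_add, pow_one]
              ring
          _ ≤ 10 ^ (4 + (k + m) + L) := Nat.pow_le_pow_right (by norm_num) (by omega)
          _ = 10000 * 10 ^ (k + m) * 10 ^ L := by
              rw [pow_add, pow_add]
              norm_num
      have hn2 : b * 10 ^ (m + 2) * 2 ^ q ≤ 10000 * 10 ^ (k + m) :=
        Nat.le_of_mul_le_mul_right hn (by positivity)
      exact_mod_cast hn2
    have p3 : (10 : ℝ) ^ k * (10 ^ (20 * t) / 10 ^ h) * 2 ^ q ≤ 1000 * 10 ^ (k + m) := by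
      rw [← mul_div_assoc, div_mul_eq_mul_div, div_le_iff₀ (by positivity)]
      have h2q : (2 : ℝ) ^ q ≤ 10 ^ q := pow_le_pow_left₀ (by norm_num) (by norm_num) q
      calc (10 : ℝ) ^ k * 10 ^ (20 * t) * 2 ^ q ≤ 10 ^ k * 10 ^ (20 * t) * 10 ^ q := by gcongr
        _ = 10 ^ (k + 20 * t + q) := by rw [pow_add, pow_add]
        _ ≤ 10 ^ (3 + (k + m) + h) := pow_le_pow_right₀ (by norm_num) (by omega)
        _ = 1000 * 10 ^ (k + m) * 10 ^ h := by
            rw [pow_add, pow_add]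
            norm_num
    have p4 : (10 : ℝ) ^ k * (10 ^ (20 * t) * (1 - 1 / 10 ^ 6) ^ t) * 2 ^ q ≤ 10 ^ (k + m) := by
      have h1 : (10 : ℝ) ^ (20 * t) = 10 ^ m * 1000 ^ q := by
        have : (1000 : ℝ) = 10 ^ 3 := by norm_num
        rw [this, ← pow_mul, ← pow_add]
        congr 1
        omega
      have h2 : ((1 - 1 / 10 ^ 6 : ℝ)) ^ t = ((1 - 1 / 10 ^ 6 : ℝ) ^ t₀) ^ q := by
        rw [ht, pow_mul]
      have h3 : ((1 - 1 / 10 ^ 6 : ℝ) ^ t₀) ^ q ≤ (1 / 2000) ^ q :=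
        pow_le_pow_left₀ (pow_nonneg (by norm_num) _) ht₀.le q
      calc (10 : ℝ) ^ k * (10 ^ (20 * t) * (1 - 1 / 10 ^ 6) ^ t) * 2 ^ q
          = 10 ^ (k + m) * (1000 ^ q * ((1 - 1 / 10 ^ 6 : ℝ) ^ t₀) ^ q * 2 ^ q) := by
            rw [h1, h2, pow_add]
            ring
        _ ≤ 10 ^ (k + m) * (1000 ^ q * (1 / 2000) ^ q * 2 ^ q) := by gcongr
        _ = 10 ^ (k + m) := by
            rw [← mul_pow, ← mul_pow]
            norm_num
    calc ((cp d D).card : ℝ) * 2 ^ q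
        ≤ (a * 10 ^ (m + 2) + b * 10 ^ (m + 2) +
            10 ^ k * (2 * (10 ^ (20 * t) / 10 ^ h + 10 ^ (20 * t) * (1 - 1 / 10 ^ 6) ^ t))) * 2 ^ q :=
          mul_le_mul_of_nonneg_right hcard (by positivity)
      _ = a * 10 ^ (m + 2) * 2 ^ q + b * 10 ^ (m + 2) * 2 ^ q +
            2 * (10 ^ k * (10 ^ (20 * t) / 10 ^ h) * 2 ^ q) +
            2 * (10 ^ k * (10 ^ (20 * t) * (1 - 1 / 10 ^ 6) ^ t) * 2 ^ q) := by ring
      _ ≤ 200 * 10 ^ (k + m) + 10000 * 10 ^ (k + m) + 2 * (1000 * 10 ^ (k + m)) +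
            2 * 10 ^ (k + m) := by linarith
      _ = 12202 * 10 ^ (k + m) := by ring
      _ ≤ (20000 + 10 ^ (120 * t₀)) * 10 ^ (k + m) := by
          apply mul_le_mul_of_nonneg_right _ (by positivity)
          linarith
      _ ≤ (20000 + 10 ^ (120 * t₀)) * Real.sqrt 10 ^ d :=
          mul_le_mul_of_nonneg_left hkm (by positivity)

end Pool.Agent.CP62
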