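import Pool.Agent.CP62.Defs
import Pool.Agent.CP62.CpK

/-!
# Palindromic cubes: the final theorem
-/

namespace Pool.Agent.CP62

open Finset

theorem mem_cp_self {n : ℕ} (hn : 1 ≤ n) (hp : (Nat.digits 10 (n ^ 3)).reverse = Nat.digits 10 (n ^ 3)) :
    n ∈ cp (Nat.log 10 n + 1) (Nat.log 10 (n ^ 3) + 1) ∧
      3 * (Nat.log 10 n + 1) ≤ Nat.log 10 (n ^ 3) + 1 + 2 ∧
      Nat.log 10 (n ^ 3) + 1 ≤ 3 * (Nat.log 10 n + 1) := by
  have h1 : n < 10 ^ (Nat.log 10 n + 1) := Nat.lt_pow_succ_log_self (by norm_num) n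
  have h2 : 10 ^ Nat.log 10 n ≤ n := Nat.pow_log_le_self 10 (by omega)
  have hn3 : n ^ 3 ≠ 0 := pow_ne_zero 3 (by omega)
  have h3 : n ^ 3 < 10 ^ (Nat.log 10 (n ^ 3) + 1) := Nat.lt_pow_succ_log_self (by norm_num) (n ^ 3)
  have h4 : 10 ^ Nat.log 10 (n ^ 3) ≤ n ^ 3 := Nat.pow_log_le_self 10 hn3
  have h5 : 10 ^ (3 * Nat.log 10 n) ≤ n ^ 3 := by
    rw [mul_comm, pow_mul]
    exact Nat.pow_le_pow_left h2 3
  have h6 : n ^ 3 < 10 ^ (3 * (Nat.log 10 n + 1)) := by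
    rw [mul_comm, pow_mul]
    exact Nat.pow_lt_pow_left h1 (by norm_num)
  have h7 : 3 * Nat.log 10 n < Nat.log 10 (n ^ 3) + 1 :=
    (Nat.pow_lt_pow_iff_right (by norm_num : 1 < 10)).1 (h5.trans_lt h3)
  have h8 : Nat.log 10 (n ^ 3) < 3 * (Nat.log 10 n + 1) :=
    (Nat.pow_lt_pow_iff_right (by norm_num : 1 < 10)).1 (h4.trans_lt h6)
  refine ⟨?_, by omega, by omega⟩
  simp only [cp, mem_filter, mem_range]
  refine ⟨h1, ?_, ?_, h3, hp⟩
  · rw [pow_succ]; omega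
  · rw [pow_succ]; omega

/-- the final theorem, from the bound for each number of digits -/
theorem final_of (hper : ∃ T : ℕ, 1 ≤ T ∧ ∃ C : ℝ, 0 < C ∧ ∀ d D : ℕ, 1 ≤ d → 3 * d ≤ D + 2 → D ≤ 3 * d →
    ((cp d D).card : ℝ) ≤ C * (Real.sqrt 10) ^ d / 2 ^ (d / T)) :
    ∃ δ C : ℝ, 0 < δ ∧ 0 < C ∧ ∀ X : ℕ, 1 ≤ X →
    (((Icc 1 X).filter fun n => (Nat.digits 10 (n ^ 3)).reverse = Nat.digits 10 (n ^ 3)).card : ℝ) ≤
      C * (X : ℝ) ^ (1 / 2 - δ) := by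
  obtain ⟨T, hT, C, hC, hcp⟩ := hper
  have hT0 : (0 : ℝ) < T := by exact_mod_cast hT
  have hT1 : (1 : ℝ) ≤ T := by exact_mod_cast hT
  have hl2 : 0 < Real.log 2 := Real.log_pos (by norm_num)
  have hl10 : 0 < Real.log 10 := Real.log_pos (by norm_num)
  have hl : 2 * Real.log 2 < Real.log 10 := by
    have h1 : Real.log (2 ^ 2) = 2 * Real.log 2 := by rw [Real.log_pow]; norm_num
    rw [← h1]
    exact Real.log_lt_log (by norm_num) (by norm_num)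
  obtain ⟨δ, hδ⟩ : ∃ δ : ℝ, δ = Real.log 2 / (T * Real.log 10) := ⟨_, rfl⟩
  have hδ0 : 0 < δ := by rw [hδ]; positivity
  have hδ1 : δ < 1 / 2 := by
    rw [hδ, div_lt_iff₀ (by positivity)]
    nlinarith
  obtain ⟨ρ, hρ⟩ : ∃ ρ : ℝ, ρ = (10 : ℝ) ^ (1 / 2 - δ) := ⟨_, rfl⟩
  have hρ1 : 1 < ρ := by
    rw [hρ]
    exact Real.one_lt_rpow (by norm_num) (by linarith)
  have hρ0 : 0 < ρ := by linarith
  -- the bound for each number of digits
  have hd : ∀ d : ℕ, (Real.sqrt 10) ^ d / 2 ^ (d / T) ≤ 2 * ρ ^ d := by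
    intro d
    have h1 : (Real.sqrt 10) ^ d = (10 : ℝ) ^ ((1 : ℝ) / 2 * d) := by
      rw [Real.sqrt_eq_rpow, ← Real.rpow_natCast, ← Real.rpow_mul (by norm_num)]
    have h2 : ρ ^ d = (10 : ℝ) ^ ((1 / 2 - δ) * d) := by
      rw [hρ, ← Real.rpow_natCast, ← Real.rpow_mul (by norm_num)]
    have h3 : (10 : ℝ) ^ (δ * d) = (2 : ℝ) ^ ((d : ℝ) / T) := by
      rw [Real.rpow_def_of_pos (by norm_num), Real.rpow_def_of_pos (by norm_num), hδ]
      congr 1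
      field_simp
    have h4 : (2 : ℝ) ^ ((d : ℝ) / T) ≤ 2 * 2 ^ (d / T) := by
      have h5 : (d : ℝ) / T ≤ ((d / T : ℕ) : ℝ) + 1 := by
        rw [div_le_iff₀ hT0]
        have h6 : d < (d / T + 1) * T := by
          have h61 := Nat.div_add_mod d T
          have h62 := Nat.mod_lt d hT
          calc d = T * (d / T) + d % T := h61.symm
            _ < T * (d / T) + T := by omega
            _ = (d / T + 1) * T := by ring
        have h7 : (d : ℝ) < ((d / T : ℕ) + 1) * T := by exact_mod_cast h6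
        exact h7.le
      calc (2 : ℝ) ^ ((d : ℝ) / T) ≤ (2 : ℝ) ^ (((d / T : ℕ) : ℝ) + 1) :=
            Real.rpow_le_rpow_of_exponent_le (by norm_num) h5
        _ = 2 * 2 ^ (d / T) := by
            rw [Real.rpow_add (by norm_num), Real.rpow_natCast, Real.rpow_one, mul_comm]
    have h8 : (10 : ℝ) ^ ((1 : ℝ) / 2 * d) = ρ ^ d * (2 : ℝ) ^ ((d : ℝ) / T) := by
      rw [h2, ← h3, ← Real.rpow_add (by norm_num)]
      congr 1
      ring
    rw [h1, h8, div_le_iff₀ (by positivity)]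
    have h9 : 0 < ρ ^ d := by positivity
    nlinarith [mul_le_mul_of_nonneg_left h4 h9.le]
  refine ⟨δ, 6 * C * (ρ ^ 2 / (ρ - 1)), hδ0, by have := sub_pos.2 hρ1; positivity, ?_⟩
  intro X hX
  obtain ⟨L, hL⟩ : ∃ L : ℕ, L = Nat.log 10 X := ⟨_, rfl⟩
  have hsub : ((Icc 1 X).filter fun n => (Nat.digits 10 (n ^ 3)).reverse = Nat.digits 10 (n ^ 3)) ⊆
      (Icc 1 (L + 1)).biUnion fun d => (Icc (3 * d - 2) (3 * d)).biUnion fun D => cp d D := by
    intro n hn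
    rw [mem_filter, mem_Icc] at hn
    obtain ⟨⟨hn1, hnX⟩, hp⟩ := hn
    obtain ⟨h1, h2, h3⟩ := mem_cp_self hn1 hp
    rw [mem_biUnion]
    have h4 : Nat.log 10 n ≤ L := by rw [hL]; exact Nat.log_mono_right hnX
    refine ⟨Nat.log 10 n + 1, mem_Icc.2 ⟨by omega, by omega⟩, ?_⟩
    rw [mem_biUnion]
    exact ⟨Nat.log 10 (n ^ 3) + 1, mem_Icc.2 ⟨by omega, by omega⟩, h1⟩
  have hcard : ((((Icc 1 X).filter fun n => (Nat.digits 10 (n ^ 3)).reverse = Nat.digits 10 (n ^ 3)).card : ℕ) : ℝ) ≤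
      ∑ d ∈ Icc 1 (L + 1), 6 * C * ρ ^ d := by
    have h1 := (card_le_card hsub).trans card_biUnion_le
    have h2 : ((∑ d ∈ Icc 1 (L + 1), ((Icc (3 * d - 2) (3 * d)).biUnion fun D => cp d D).card : ℕ) : ℝ) ≤
        ∑ d ∈ Icc 1 (L + 1), 6 * C * ρ ^ d := by
      push_cast
      refine sum_le_sum fun d hd1 => ?_
      rw [mem_Icc] at hd1
      have h3 : ((((Icc (3 * d - 2) (3 * d)).biUnion fun D => cp d D).card : ℕ) : ℝ) ≤
          ∑ D ∈ Icc (3 * d - 2) (3 * d), ((cp d D).card : ℝ) := by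
        exact_mod_cast card_biUnion_le
      refine h3.trans ?_
      have h4 : ∀ D ∈ Icc (3 * d - 2) (3 * d), ((cp d D).card : ℝ) ≤ C * (2 * ρ ^ d) := by
        intro D hD
        rw [mem_Icc] at hD
        refine (hcp d D hd1.1 (by omega) hD.2).trans ?_
        rw [mul_div_assoc]
        exact mul_le_mul_of_nonneg_left (hd d) hC.le
      refine (sum_le_sum h4).trans (le_of_eq ?_)
      rw [sum_const, Nat.card_Icc, nsmul_eq_mul]
      have h5 : 3 * d + 1 - (3 * d - 2) = 3 := by omega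
      rw [h5]
      push_cast
      ring
    exact (Nat.cast_le.2 h1).trans h2
  refine hcard.trans ?_
  have hgeo : ∑ d ∈ Icc 1 (L + 1), 6 * C * ρ ^ d ≤ 6 * C * (ρ ^ (L + 2) / (ρ - 1)) := by
    rw [← mul_sum]
    refine mul_le_mul_of_nonneg_left ?_ (by positivity)
    have h1 : ∑ d ∈ Icc 1 (L + 1), ρ ^ d ≤ ∑ d ∈ range (L + 2), ρ ^ d := by
      refine sum_le_sum_of_subset_of_nonneg ?_ fun _ _ _ => by positivity
      intro d hd1
      rw [mem_Icc] at hd1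
      exact mem_range.2 (by omega)
    refine h1.trans ?_
    rw [geom_sum_eq hρ1.ne']
    have := sub_pos.2 hρ1
    gcongr
    linarith
  refine hgeo.trans ?_
  have hρL : ρ ^ L ≤ (X : ℝ) ^ (1 / 2 - δ) := by
    have h1 : ρ ^ L = ((10 : ℝ) ^ L) ^ (1 / 2 - δ) := by
      rw [hρ, ← Real.rpow_natCast, ← Real.rpow_natCast, ← Real.rpow_mul (by norm_num), ← Real.rpow_mul (by norm_num),
        mul_comm]
    rw [h1]
    refine Real.rpow_le_rpow (by positivity) ?_ (by linarith)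
    have h2 : 10 ^ L ≤ X := by rw [hL]; exact Nat.pow_log_le_self 10 (by omega)
    exact_mod_cast h2
  have h1 : 6 * C * (ρ ^ (L + 2) / (ρ - 1)) = 6 * C * (ρ ^ 2 / (ρ - 1)) * ρ ^ L := by
    rw [pow_add]; ring
  rw [h1]
  have := sub_pos.2 hρ1
  exact mul_le_mul_of_nonneg_left hρL (by positivity)

/-- palindromic cubes are sparse -/
theorem final : ∃ δ C : ℝ, 0 < δ ∧ 0 < C ∧ ∀ X : ℕ, 1 ≤ X →
    (((Icc 1 X).filter fun n => (Nat.digits 10 (n ^ 3)).reverse = Nat.digits 10 (n ^ 3)).card : ℝ) ≤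
      C * (X : ℝ) ^ (1 / 2 - δ) :=
  final_of per_digit

end Pool.Agent.CP62
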